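import Pool.Agent.H21.L.R_seed8.TH942.SL.Curve

/-!
# Sectorial means for an elliptic curve: finite sums
-/

set_option autoImplicit false

namespace Pool.Agent.TH942.SL

open MeasureTheory Filter Topology Set Classical
open Pool.Agent.W263.BSD Pool.Agent.W189.ML Pool.Agent.W187.UR
open Pool.Agent.TH942.LS (lm cE dat cont Kf Cont Dat lm_eq)

variable {a b : ℤ} {F : ℂ → ℂ}

/-- the finite sum -/
noncomputable def Sr (a b : ℤ) (ρ ρ' X : ℝ) : ℝ :=
  ∑ p ∈ (Finset.range (⌊Real.exp (Real.log X ^ ρ')⌋₊ + 1)).filter (GoodPrime a b),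
    wml ρ⁻¹ (Real.log p / Real.log X) * Real.log (((pointCount a b p : ℝ) + 1) / p)

theorem Sr_close (a b : ℤ) {ρ ρ' : ℝ} (hρ : 1 < ρ) (hρ' : ρ < ρ') :
    ∃ C : ℝ, 0 ≤ C ∧ ∀ᶠ X : ℝ in atTop,
      |Sr a b ρ ρ' X - M lm (cE a b) ρ⁻¹ (Real.log X ^ ρ)| ≤ C := by
  have h0 : 0 < ρ⁻¹ := by positivity
  have h1 : ρ⁻¹ < 1 := inv_lt_one_of_one_lt₀ hρ
  have hρ0 : 0 < ρ := by linarith
  obtain ⟨B, C, hB, hC, h⟩ := M_finite (dat a b) h0 h1
  refine ⟨C, hC, ?_⟩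
  have h2 : ∀ᶠ T : ℝ in atTop, B * T ^ ρ ≤ T ^ ρ' := by
    have e1 : Tendsto (fun T : ℝ => T ^ (ρ' - ρ)) atTop atTop :=
      tendsto_rpow_atTop (by linarith)
    filter_upwards [e1.eventually_ge_atTop B, eventually_gt_atTop 0] with T h3 h4
    have e2 : T ^ ρ' = T ^ (ρ' - ρ) * T ^ ρ := by
      rw [← Real.rpow_add h4]
      congr 1
      ring
    rw [e2]
    have : 0 < T ^ ρ := Real.rpow_pos_of_pos h4 _
    gcongr
  filter_upwards [Real.tendsto_log_atTop.eventually h2, eventually_gt_atTop 1] with X h3 h4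
  have hT : 0 < Real.log X := Real.log_pos h4
  have hy : 0 < Real.log X ^ ρ := Real.rpow_pos_of_pos hT _
  have e1 := h (Real.log X ^ ρ)
    ((Finset.range (⌊Real.exp (Real.log X ^ ρ')⌋₊ + 1)).filter (GoodPrime a b)) hy ?_
  · rw [abs_sub_comm] at e1
    have e2 : Sr a b ρ ρ' X = ∑ n ∈ (Finset.range (⌊Real.exp (Real.log X ^ ρ')⌋₊ + 1)).filter
        (GoodPrime a b), cE a b n * wml ρ⁻¹ (lm n * (Real.log X ^ ρ) ^ (-ρ⁻¹)) := by
      unfold Sr
      refine Finset.sum_congr rfl fun p hp => ?_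
      have hg : GoodPrime a b p := (Finset.mem_filter.1 hp).2
      have e3 : (Real.log X ^ ρ) ^ (-ρ⁻¹) = (Real.log X)⁻¹ := by
        rw [← Real.rpow_mul hT.le]
        have : ρ * -ρ⁻¹ = -1 := by field_simp
        rw [this, Real.rpow_neg_one]
      rw [e3, ← div_eq_mul_inv, lm_eq hg.1.two_le]
      unfold cE
      rw [if_pos hg, mul_comm]
    rw [e2]
    exact e1
  · intro n hn
    by_cases hg : GoodPrime a b n
    · right
      have h5 : n ∉ Finset.range (⌊Real.exp (Real.log X ^ ρ')⌋₊ + 1) := fun h =>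
        hn (Finset.mem_filter.2 ⟨h, hg⟩)
      rw [Finset.mem_range, not_lt] at h5
      have h6 : ⌊Real.exp (Real.log X ^ ρ')⌋₊ < n := h5
      have h7 : Real.exp (Real.log X ^ ρ') < n := (Nat.floor_lt (Real.exp_pos _).le).1 h6
      rw [lm_eq hg.1.two_le]
      refine h3.trans ?_
      rw [Real.le_log_iff_exp_le ((Real.exp_pos _).trans h7)]
      exact h7.le
    · left
      unfold cE
      rw [if_neg hg]

/-- **zero-free sectors imply the asymptotic formula** -/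
theorem Sr_up (hF : IsLSeries a b F) {ρ ρ' : ℝ} (hρ : 1 < ρ) (hρ' : ρ < ρ') {m : ℕ}
    (hm : analyticOrderAt F 1 = m)
    (hz : ∀ s : ℂ, s ≠ 1 → |(s - 1).arg| < Real.pi / (2 * ρ) → F s ≠ 0) :
    ∃ C : ℝ, 0 ≤ C ∧ ∀ᶠ X : ℝ in atTop, |Sr a b ρ ρ' X - m * Real.log (Real.log X)| ≤ C := by
  have hρ0 : 0 < ρ := by linarith
  obtain ⟨C₁, hC₁, h1⟩ := Sr_close a b hρ hρ'
  obtain ⟨C₂, h2⟩ := curve_up hF hρ hm hz
  refine ⟨C₁ + |C₂|, by positivity, ?_⟩
  filter_upwards [h1, Real.tendsto_log_atTop.eventually_ge_atTop 1] with X h3 h4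
  have hT : 0 < Real.log X := by linarith
  have h5 := h2 (Real.log X ^ ρ) (Real.one_le_rpow h4 hρ0.le)
  have e1 : (m : ℝ) * ρ⁻¹ * Real.log (Real.log X ^ ρ) = m * Real.log (Real.log X) := by
    rw [Real.log_rpow hT]
    field_simp
  rw [e1] at h5
  have h6 := abs_sub_le (Sr a b ρ ρ' X) (M lm (cE a b) ρ⁻¹ (Real.log X ^ ρ))
    (m * Real.log (Real.log X))
  have h7 := le_abs_self C₂
  linarith

/-- **zeros in the sector force large sums** -/
theorem Sr_down (hF : IsLSeries a b F) {ρ ρ' : ℝ} (hρ : 1 < ρ) (hρ' : ρ < ρ') {s : ℂ}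
    (hs1 : s ≠ 1) (hs : |(s - 1).arg| < Real.pi / (2 * ρ)) (h0 : F s = 0) {β : ℝ}
    (hβ : β < ((s - 1) ^ (ρ : ℂ)).re) (C : ℝ) :
    ∃ᶠ X : ℝ in atTop, C * Real.exp (β * Real.log X ^ ρ) < |Sr a b ρ ρ' X| := by
  have hρ0 : 0 < ρ := by linarith
  rw [Filter.Frequently]
  intro hne
  obtain ⟨C₁, hC₁, h1⟩ := Sr_close a b hρ hρ'
  obtain ⟨h2, -⟩ := exists_root hρ (sub_ne_zero.2 hs1) hs
  have hβ' : max β 0 < ((s - 1) ^ (ρ : ℂ)).re := max_lt hβ h2
  have h3 : ∀ᶠ X : ℝ in atTop, |M lm (cE a b) ρ⁻¹ (Real.log X ^ ρ)| ≤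
      (|C| + C₁) * Real.exp (max β 0 * Real.log X ^ ρ) := by
    filter_upwards [hne, h1, eventually_gt_atTop 1] with X h4 h5 h6
    rw [not_lt] at h4
    have hT : 0 < Real.log X := Real.log_pos h6
    have hy : 0 < Real.log X ^ ρ := Real.rpow_pos_of_pos hT _
    have e1 : 1 ≤ Real.exp (max β 0 * Real.log X ^ ρ) :=
      Real.one_le_exp (mul_nonneg (le_max_right _ _) hy.le)
    have e2 : Real.exp (β * Real.log X ^ ρ) ≤ Real.exp (max β 0 * Real.log X ^ ρ) :=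
      Real.exp_le_exp.2 (mul_le_mul_of_nonneg_right (le_max_left _ _) hy.le)
    have e3 : C * Real.exp (β * Real.log X ^ ρ) ≤ |C| * Real.exp (max β 0 * Real.log X ^ ρ) :=
      mul_le_mul (le_abs_self C) e2 (Real.exp_pos _).le (abs_nonneg _)
    have e4 : C₁ ≤ C₁ * Real.exp (max β 0 * Real.log X ^ ρ) := le_mul_of_one_le_right hC₁ e1
    have e5 := abs_sub_abs_le_abs_sub (M lm (cE a b) ρ⁻¹ (Real.log X ^ ρ)) (Sr a b ρ ρ' X)
    rw [abs_sub_comm] at e5
    rw [add_mul]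
    linarith
  obtain ⟨X₀, hX₀⟩ := h3.exists_forall_of_atTop
  -- `y = (log X)^ρ` takes all large values
  refine curve_down hF hρ hs1 hs h0 (β := max β 0) (C := |C| + C₁)
    (y₀ := max 1 (max 0 (Real.log (max X₀ 1)) ^ ρ)) (le_max_right _ _) hβ' fun y hy => ?_
  have hy1 : 1 ≤ y := (le_max_left _ _).trans hy
  have hy0 : 0 < y := by linarith
  have hy2 : max 0 (Real.log (max X₀ 1)) ^ ρ ≤ y := (le_max_right _ _).trans hy
  have e1 : Real.log (Real.exp (y ^ ρ⁻¹)) ^ ρ = y := by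
    rw [Real.log_exp, ← Real.rpow_mul hy0.le, inv_mul_cancel₀ hρ0.ne', Real.rpow_one]
  have e2 : X₀ ≤ Real.exp (y ^ ρ⁻¹) := by
    have e3 : max 0 (Real.log (max X₀ 1)) ≤ y ^ ρ⁻¹ := by
      have := Real.rpow_le_rpow (by positivity) hy2 (by positivity : 0 ≤ ρ⁻¹)
      rwa [← Real.rpow_mul (le_max_left _ _), mul_inv_cancel₀ hρ0.ne', Real.rpow_one] at this
    have e4 : Real.log (max X₀ 1) ≤ y ^ ρ⁻¹ := (le_max_right _ _).trans e3
    rw [Real.log_le_iff_le_exp (lt_max_of_lt_right one_pos)] at e4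
    exact (le_max_left _ _).trans e4
  have := hX₀ _ e2
  rwa [e1] at this

/-- the boundedness of the deviation by `o (log log X)` forces a zero-free sector -/
theorem sector_of_small (hF : IsLSeries a b F) {ρ ρ' : ℝ} (hρ : 1 < ρ) (hρ' : ρ < ρ') {K : ℝ}
    (h : ∀ᶠ X : ℝ in atTop, |Sr a b ρ ρ' X| ≤ K * Real.log (Real.log X)) :
    ∀ s : ℂ, s ≠ 1 → |(s - 1).arg| < Real.pi / (2 * ρ) → F s ≠ 0 := by
  intro s hs1 hs h0
  have hρ0 : 0 < ρ := by linarith
  obtain ⟨h2, -⟩ := exists_root hρ (sub_ne_zero.2 hs1) hs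
  set v : ℝ := ((s - 1) ^ (ρ : ℂ)).re with hv
  have h3 := Sr_down hF hρ hρ' hs1 hs h0 (β := v / 2) (by linarith) (|K| / (v / 2))
  refine h3 ?_
  filter_upwards [h, Real.tendsto_log_atTop.eventually_ge_atTop 1] with X h4 h5
  rw [not_lt]
  have hT : 0 < Real.log X := by linarith
  have e1 : Real.log (Real.log X) ≤ Real.log X ^ ρ := by
    have := Real.log_le_sub_one_of_pos hT
    have e2 : Real.log X ≤ Real.log X ^ ρ := by
      conv_lhs => rw [← Real.rpow_one (Real.log X)]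
      exact Real.rpow_le_rpow_of_exponent_le h5 hρ.le
    linarith
  have e2 : v / 2 * Real.log X ^ ρ ≤ Real.exp (v / 2 * Real.log X ^ ρ) := by
    have := Real.add_one_le_exp (v / 2 * Real.log X ^ ρ)
    linarith
  have e3 : 0 ≤ Real.log (Real.log X) := Real.log_nonneg h5
  have hv2 : 0 < v / 2 := by linarith
  calc |Sr a b ρ ρ' X| ≤ K * Real.log (Real.log X) := h4
    _ ≤ |K| * Real.log X ^ ρ := mul_le_mul (le_abs_self K) e1 e3 (abs_nonneg _)
    _ = |K| / (v / 2) * (v / 2 * Real.log X ^ ρ) := by field_simp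
    _ ≤ _ := by gcongr

/-- the half plane is the union of the sectors -/
theorem mem_sector {s : ℂ} (hs : 1 < s.re) : ∃ ρ : ℝ, 1 < ρ ∧
    |(s - 1).arg| < Real.pi / (2 * ρ) := by
  have h1 : |(s - 1).arg| < Real.pi / 2 := by
    apply arg_abs
    rw [Complex.sub_re, Complex.one_re]
    linarith
  have hpi := Real.pi_pos
  have h2 : Tendsto (fun ρ : ℝ => Real.pi / (2 * ρ)) (𝓝[>] 1) (𝓝 (Real.pi / (2 * 1))) := by
    have h3 : ContinuousAt (fun ρ : ℝ => Real.pi / (2 * ρ)) 1 := by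
      refine ContinuousAt.div continuousAt_const (by fun_prop) (by norm_num)
    exact h3.tendsto.mono_left nhdsWithin_le_nhds
  rw [mul_one] at h2
  obtain ⟨ρ, h3, h4⟩ := ((h2.eventually (lt_mem_nhds h1)).and self_mem_nhdsWithin).exists
  exact ⟨ρ, h4, h3⟩

theorem re_of_sector {s : ℂ} {ρ : ℝ} (hρ : 1 < ρ) (hs1 : s ≠ 1)
    (hs : |(s - 1).arg| < Real.pi / (2 * ρ)) : 1 < s.re := by
  have hpi := Real.pi_pos
  have h1 : |(s - 1).arg| < Real.pi / 2 := by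
    refine hs.trans ?_
    apply div_lt_div_of_pos_left hpi (by norm_num) (by linarith)
  rcases Complex.abs_arg_lt_pi_div_two_iff.1 h1 with h2 | h2
  · rw [Complex.sub_re, Complex.one_re] at h2
    linarith
  · exact absurd h2 (sub_ne_zero.2 hs1)

end Pool.Agent.TH942.SL
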