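import Pool.Agent.H21.L.R_seed8.TH942.SL.Lim3
import Pool.Agent.H21.L.R_seed8.TH942.SL.Final
import Pool.Agent.H21.L.R_seed8.W187.S2.Law
import Pool.Agent.H21.L.R_seed8.W975.S2.RS
import Pool.Agent.H21.L.R_seed8.W856.S2.MMPart

/-!
# The limit of the sectorial means of an elliptic curve over `ℚ`
-/

set_option autoImplicit false

namespace Pool.Agent.TH942.SL

open MeasureTheory Filter Topology Set Classical
open Pool.Agent.W263.BSD Pool.Agent.W189.ML Pool.Agent.W187.UR
open Pool.Agent.TH942.LS (lm cE dat cont Kf Cont Dat lm_eq cE_eq cf_ne)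

/-- **the finite part of the mean, with a small error** -/
theorem M_finite' {α : ℝ} {lam c : ℕ → ℝ} {δ σ : ℝ} (D : Dat lam c δ σ) (h0 : 0 < α) (h1 : α < 1) :
    ∃ B C : ℝ, 0 < B ∧ 0 ≤ C ∧ ∀ (y : ℝ) (F : Finset ℕ), 0 < y →
      (∀ n, n ∉ F → c n = 0 ∨ B * y ≤ lam n) →
      |M lam c α y - ∑ n ∈ F, c n * wml α (lam n * y ^ (-α))| ≤ C * Real.exp (-(B * y)) := by
  obtain ⟨B, C, hB, hC, h⟩ := wml_tail h0 h1 (σ := σ + 1) D.δ0
  obtain ⟨x₀, hx1, hx₀⟩ := exists_abscissa h0 h1 σ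
  have hS := S₀_nonneg lam c σ
  refine ⟨B, C * S₀ lam c σ, hB, by positivity, fun y F hy hF => ?_⟩
  obtain ⟨-, hsum⟩ := M_eq D h0 h1 (x := x₀) (by linarith) hy fun z hz => by
    have e1 : 0 < z.re := by rw [hz]; linarith
    have e2 : x₀ ≤ ‖z‖ := by rw [← hz]; exact Complex.re_le_norm z
    linarith [hx₀ z e1 e2]
  unfold M
  rw [← hsum.sum_add_tsum_compl (s := F), add_sub_cancel_left]
  have hs1 : Summable fun n => C * Real.exp (-(B * y)) * (|c n| * Real.exp (-(σ * lam n))) :=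
    D.sum.mul_left _
  have hs2 : Summable fun n : ↑((F : Set ℕ)ᶜ) =>
      C * Real.exp (-(B * y)) * (|c n| * Real.exp (-(σ * lam n))) := hs1.subtype _
  have e1 : ∀ n : ↑((F : Set ℕ)ᶜ), ‖c n * wml α (lam n * y ^ (-α))‖ ≤
      C * Real.exp (-(B * y)) * (|c n| * Real.exp (-(σ * lam n))) := by
    intro n
    rw [norm_mul, Real.norm_eq_abs, Real.norm_eq_abs]
    rcases hF n (fun h => n.2 h) with h2 | h2
    · rw [h2, abs_zero, zero_mul, zero_mul, mul_zero]
    · have e2 : Real.exp (-((σ + 1) * lam n)) ≤ Real.exp (-(B * y)) * Real.exp (-(σ * lam n)) := by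
        rw [← Real.exp_add]
        apply Real.exp_le_exp.2
        linarith
      calc |c n| * |wml α (lam n * y ^ (-α))| ≤ |c n| * (C * Real.exp (-((σ + 1) * lam n))) :=
          mul_le_mul_of_nonneg_left (h y (lam n) hy (D.lam_ge n) h2) (abs_nonneg _)
        _ ≤ |c n| * (C * (Real.exp (-(B * y)) * Real.exp (-(σ * lam n)))) := by gcongr
        _ = _ := by ring
  have e2 := tsum_of_norm_bounded hs2.hasSum e1
  rw [Real.norm_eq_abs] at e2
  refine e2.trans ?_
  have e3 := Summable.tsum_subtype_le (fun n => C * Real.exp (-(B * y)) *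
    (|c n| * Real.exp (-(σ * lam n)))) ((F : Set ℕ)ᶜ) (fun n => by positivity) hs1
  refine e3.trans (le_of_eq ?_)
  rw [tsum_mul_left]
  unfold S₀
  ring

variable {a b : ℤ} {F : ℂ → ℂ}

/-- the finite sums and the means have the same limits -/
theorem Sr_close' (a b : ℤ) {ρ ρ' : ℝ} (hρ : 1 < ρ) (hρ' : ρ < ρ') :
    Tendsto (fun X : ℝ => Sr a b ρ ρ' X - M lm (cE a b) ρ⁻¹ (Real.log X ^ ρ)) atTop (𝓝 0) := by
  have h0 : 0 < ρ⁻¹ := by positivity
  have h1 : ρ⁻¹ < 1 := inv_lt_one_of_one_lt₀ hρ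
  have hρ0 : 0 < ρ := by linarith
  obtain ⟨B, C, hB, hC, h⟩ := M_finite' (dat a b) h0 h1
  have h2 : ∀ᶠ T : ℝ in atTop, B * T ^ ρ ≤ T ^ ρ' := by
    have e1 : Tendsto (fun T : ℝ => T ^ (ρ' - ρ)) atTop atTop :=
      tendsto_rpow_atTop (by linarith)
    filter_upwards [e1.eventually_ge_atTop B, eventually_gt_atTop 0] with T h3 h4
    have e2 : T ^ ρ' = T ^ (ρ' - ρ) * T ^ ρ := by
      rw [← Real.rpow_add h4]
      congr 1
      ring
    rw [e2]
    have : 0 < T ^ ρ := Real.rpow_pos_of_pos h4 _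
    gcongr
  have hlim : Tendsto (fun X : ℝ => C * Real.exp (-(B * Real.log X ^ ρ))) atTop (𝓝 0) := by
    have e1 : Tendsto (fun X : ℝ => B * Real.log X ^ ρ) atTop atTop :=
      ((tendsto_rpow_atTop hρ0).comp Real.tendsto_log_atTop).const_mul_atTop hB
    have e2 := (Real.tendsto_exp_neg_atTop_nhds_zero.comp e1).const_mul C
    rwa [mul_zero] at e2
  refine squeeze_zero_norm' ?_ hlim
  filter_upwards [Real.tendsto_log_atTop.eventually h2, eventually_gt_atTop 1] with X h3 h4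
  have hT : 0 < Real.log X := Real.log_pos h4
  have hy : 0 < Real.log X ^ ρ := Real.rpow_pos_of_pos hT _
  have e1 := h (Real.log X ^ ρ)
    ((Finset.range (⌊Real.exp (Real.log X ^ ρ')⌋₊ + 1)).filter (GoodPrime a b)) hy ?_
  · rw [abs_sub_comm] at e1
    have e2 : Sr a b ρ ρ' X = ∑ n ∈ (Finset.range (⌊Real.exp (Real.log X ^ ρ')⌋₊ + 1)).filter
        (GoodPrime a b), cE a b n * wml ρ⁻¹ (lm n * (Real.log X ^ ρ) ^ (-ρ⁻¹)) := by
      unfold Sr
      refine Finset.sum_congr rfl fun p hp => ?_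
      have hg : GoodPrime a b p := (Finset.mem_filter.1 hp).2
      have e3 : (Real.log X ^ ρ) ^ (-ρ⁻¹) = (Real.log X)⁻¹ := by
        rw [← Real.rpow_mul hT.le]
        have : ρ * -ρ⁻¹ = -1 := by field_simp
        rw [this, Real.rpow_neg_one]
      rw [e3, ← div_eq_mul_inv, lm_eq hg.1.two_le]
      unfold cE
      rw [if_pos hg, mul_comm]
    rw [e2, Real.norm_eq_abs]
    exact e1
  · intro n hn
    by_cases hg : GoodPrime a b n
    · right
      have h5 : n ∉ Finset.range (⌊Real.exp (Real.log X ^ ρ')⌋₊ + 1) := fun h =>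
        hn (Finset.mem_filter.2 ⟨h, hg⟩)
      rw [Finset.mem_range, not_lt] at h5
      have h6 : ⌊Real.exp (Real.log X ^ ρ')⌋₊ < n := h5
      have h7 : Real.exp (Real.log X ^ ρ') < n := (Nat.floor_lt (Real.exp_pos _).le).1 h6
      rw [lm_eq hg.1.two_le]
      refine h3.trans ?_
      rw [Real.le_log_iff_exp_le ((Real.exp_pos _).trans h7)]
      exact h7.le
    · left
      unfold cE
      rw [if_neg hg]

/-- factorisation at the central point -/
theorem factor (hF : IsLSeries a b F) {r : ℕ} (hr : analyticOrderAt F 1 = r) :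
    ∃ g : ℂ → ℂ, AnalyticAt ℂ g 0 ∧
      g 0 = iteratedDeriv r F 1 / (r.factorial : ℂ) * small a b 0 ∧ g 0 ≠ 0 ∧
      ∀ s, PhiF a b F s = s ^ r * g s := by
  have hFa : AnalyticAt ℂ F 1 := hF.1.analyticAt 1
  have hne : iteratedDeriv r F 1 ≠ 0 := by
    obtain ⟨h1, -⟩ := lead_limit hF.1 hr
    intro h0
    unfold leadAbs at h1
    rw [h0, norm_zero, zero_div] at h1
    exact lt_irrefl _ h1
  have hs0 : small a b 0 ≠ 0 := by
    have := small_ne_zero_real (a := a) (b := b) (w := 0) le_rfl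
    simpa using this
  have h1 := (natCast_le_analyticOrderAt_iff_iteratedDeriv_eq_zero hFa (n := r)).mp hr.ge
  have hfa : AnalyticAt ℂ (fun w : ℂ => F (1 + w)) 0 := by
    have : Differentiable ℂ (fun w : ℂ => F (1 + w)) := hF.1.comp (by fun_prop)
    exact this.analyticAt 0
  obtain ⟨G, hG, hG'⟩ := hfa.exists_eq_sum_add_pow_mul (r + 1)
  have h4 : ∀ i, iteratedDeriv i (fun w : ℂ => F (1 + w)) 0 = iteratedDeriv i F 1 := by
    intro i
    rw [iteratedDeriv_comp_const_add]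
    simp
  have h5 : ∀ w : ℂ, F (1 + w) = w ^ r * (iteratedDeriv r F 1 / (r.factorial : ℂ) + w * G w) := by
    intro w
    rw [hG' w, Finset.sum_range_succ, Finset.sum_eq_zero, h4, zero_add, smul_eq_mul, smul_eq_mul]
    · ring
    · intro i hi
      rw [h4, h1 i (Finset.mem_range.mp hi), smul_zero]
  set g : ℂ → ℂ := fun w => (iteratedDeriv r F 1 / (r.factorial : ℂ) + w * G w) * small a b w with hg
  have hga : AnalyticAt ℂ g 0 :=
    (analyticAt_const.add (analyticAt_id.mul hG)).mul (small_differentiable.analyticAt 0)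
  have hg0 : g 0 = iteratedDeriv r F 1 / (r.factorial : ℂ) * small a b 0 := by
    rw [hg]; simp
  refine ⟨g, hga, hg0, ?_, fun w => ?_⟩
  · rw [hg0]
    refine mul_ne_zero (div_ne_zero hne ?_) hs0
    exact_mod_cast r.factorial_ne_zero
  · rw [hg]
    unfold PhiF
    rw [h5]
    ring

/-- the Dirichlet series -/
theorem DD_split {s : ℂ} (hs : 1 < s.re) : DD lm (cE a b) s =
    ser (fun p : ℕ => Real.log p) (cf a b) s +
      ∑ p ∈ Finset.range 25, (cE a b p : ℂ) * Complex.exp (-(s * lm p)) := by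
  have e1 : ∀ p : ℕ, (cE a b p : ℂ) * Complex.exp (-(s * lm p)) =
      (cf a b p : ℂ) * Complex.exp (-(s * Real.log p)) +
      (if p < 25 then (cE a b p : ℂ) * Complex.exp (-(s * lm p)) else 0) := by
    intro p
    by_cases h25 : p < 25
    · have h2 : cf a b p = 0 := by
        by_contra h
        have := cf_ne h
        omega
      rw [if_pos h25, h2]
      simp
    · have h3 : cE a b p = cf a b p := by
        rw [cE_eq, if_neg h25, add_zero]
      rw [if_neg h25, add_zero, h3, lm_eq (by omega)]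
  unfold DD ser
  rw [tsum_congr e1]
  have s1 : Summable fun p : ℕ => (cf a b p : ℂ) * Complex.exp (-(s * Real.log p)) := by
    refine Summable.of_norm ?_
    refine (cf_sum a b s.re hs).congr fun p => ?_
    rw [norm_mul, Complex.norm_real, Real.norm_eq_abs, Complex.norm_exp, Complex.neg_re,
      Complex.re_mul_ofReal]
  have hz : ∀ p ∉ Finset.range 25, (if p < 25 then (cE a b p : ℂ) *
      Complex.exp (-(s * lm p)) else 0) = 0 := fun p hp => by
    rw [Finset.mem_range] at hp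
    rw [if_neg hp]
  rw [s1.tsum_add (summable_of_ne_finset_zero hz), tsum_eq_sum hz]
  congr 1

theorem GK_exp (hF : IsLSeries a b F) {s : ℂ} (hs : 1 < s.re) :
    Complex.exp (GK a b s - DD lm (cE a b) s) = PhiF a b F s := by
  rw [← exp_eq (eData a b) hs (PhiF_hasProd hF hs), DD_split hs]
  unfold GK
  congr 1
  change _ = GG (SS a b) (Ap a b) s - ser (fun p : ℕ => Real.log p) (cf a b) s
  ring

/-- the limit of the correction function along rays -/
theorem GK_ray (hΔ : 4 * a ^ 3 + 27 * b ^ 2 ≠ 0) (hrs : Tendsto (rsSum a b) atTop (𝓝 0))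
    {ζ : ℂ} (hζ : 0 < ζ.re) : Tendsto (fun T : ℝ => GK a b (ζ / T)) atTop
      (𝓝 (((Real.log 2 / 2 : ℝ) : ℂ) + Pool.Agent.W187.S2.sig a b)) := by
  have h1 := Pool.Agent.W975.S2.rs a b hΔ hrs ζ hζ
  have h2 := (Pool.Agent.W856.S2.mm_part (SS a b) (Ap a b) (eData a b)).2.2 ζ hζ
  have h3 := h1.add h2
  rw [add_zero] at h3
  have hz : Tendsto (fun T : ℝ => ζ / (T : ℂ)) atTop (𝓝 0) := by
    rw [tendsto_zero_iff_norm_tendsto_zero]
    have e1 : Tendsto (fun y : ℝ => ‖ζ‖ / y) atTop (𝓝 0) :=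
      tendsto_const_nhds.div_atTop tendsto_id
    refine e1.congr' ?_
    filter_upwards [eventually_gt_atTop 0] with y hy
    rw [norm_div, Complex.norm_real, Real.norm_eq_abs, abs_of_pos hy]
  have h4 : Tendsto (fun T : ℝ => ∑ p ∈ Finset.range 25, (cE a b p : ℂ) *
      Complex.exp (-((ζ / T) * lm p))) atTop (𝓝 (Pool.Agent.W187.S2.sig a b)) := by
    have e1 : Continuous fun s : ℂ => ∑ p ∈ Finset.range 25, (cE a b p : ℂ) *
      Complex.exp (-(s * lm p)) := by fun_prop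
    have e2 := (e1.tendsto 0).comp hz
    have e3 : (∑ p ∈ Finset.range 25, (cE a b p : ℂ) * Complex.exp (-(0 * lm p))) =
        Pool.Agent.W187.S2.sig a b := by
      unfold Pool.Agent.W187.S2.sig
      refine Finset.sum_congr rfl fun p hp => ?_
      rw [zero_mul, neg_zero, Complex.exp_zero, mul_one]
      unfold cE
      by_cases hg : GoodPrime a b p
      · rw [if_pos hg, if_pos ⟨Finset.mem_range.1 hp, hg⟩]
        rfl
      · rw [if_neg hg, if_neg fun h => hg h.2, Complex.ofReal_zero]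
    rw [e3] at e2
    exact e2
  refine (h3.add h4).congr fun T => ?_
  unfold GK
  ring

/-- **The limit of the means of an elliptic curve.** -/
theorem curve_lim (hΔ : 4 * a ^ 3 + 27 * b ^ 2 ≠ 0) (hrs : Tendsto (rsSum a b) atTop (𝓝 0))
    (hF : IsLSeries a b F) {ρ : ℝ} (hρ : 1 < ρ) {m : ℕ} (hm : analyticOrderAt F 1 = m)
    (hz : ∀ s : ℂ, s ≠ 1 → |(s - 1).arg| < Real.pi / (2 * ρ) → F s ≠ 0) :
    ∃ κ : ℝ, Tendsto (fun y : ℝ => M lm (cE a b) ρ⁻¹ y - m * ρ⁻¹ * Real.log y) atTop (𝓝 κ) ∧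
      (Real.exp κ : ℂ) * (iteratedDeriv m F 1 / (m.factorial : ℂ)) =
        ((√2 * Real.exp (m * ρ⁻¹ * Real.eulerMascheroniConstant) : ℝ) : ℂ) := by
  have h0 : 0 < ρ⁻¹ := by positivity
  have h1 : ρ⁻¹ < 1 := inv_lt_one_of_one_lt₀ hρ
  have hk := kap_pos h0 h1
  obtain ⟨C₁, hG, hK⟩ := sector_bounds a b hk (kap_le_one _)
  obtain ⟨r, C₂, hr, hΨ⟩ := log_deriv_zero (ordZero hF hm)
  have hmin : 0 < min r 1 := lt_min hr one_pos
  obtain ⟨g, hga, hg0, hg0', hfac⟩ := factor hF hm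
  have hne : ∀ v : ℂ, 0 < v.re → PhiF a b F (v ^ ((ρ⁻¹ : ℝ) : ℂ)) ≠ 0 := by
    intro v hv
    have hre := re_pow_pos h0 h1 hv
    unfold PhiF
    refine mul_ne_zero (hz _ ?_ ?_) (small_ne hre)
    · intro h
      have : v ^ ((ρ⁻¹ : ℝ) : ℂ) = 0 := by linear_combination h
      exact ne_zero' hre this
    · rw [add_sub_cancel_left]
      have := arg_pow h0 h1 hv
      refine this.trans_le (le_of_eq ?_)
      field_simp
  obtain ⟨κ₀, hκ, hlim⟩ := up_lim (dat a b) (cont hF le_rfl) h0 h1 hne (m := m)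
    (r := min r 1) (C := max C₁ C₂) hmin (G := GK a b) (fun s hs => GK_deriv hs)
    (fun κ hκ => by
      obtain ⟨C, hC, -⟩ := sector_bounds a b (κ := min κ 1) (lt_min hκ one_pos)
        (min_le_right _ _)
      refine ⟨C, fun s hs hs2 hs3 => hC s hs ?_ (hs3.trans (min_le_right _ _))⟩
      exact (mul_le_mul_of_nonneg_right (min_le_left _ _) (norm_nonneg _)).trans hs2)
    (fun s hs hs2 hs3 => (hK s hs hs2 (hs3.trans (min_le_right _ _))).trans
      (div_le_div_of_nonneg_right (le_max_left _ _) (norm_nonneg _)))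
    (fun s hs _ hs3 => (hΨ s (ne_zero' hs) (hs3.trans (min_le_left _ _))).trans
      (le_max_right _ _))
    (fun s hs => GK_exp hF (by linarith)) (fun ζ hζ => GK_ray hΔ hrs hζ) hga hg0'
    (Eventually.of_forall hfac)
  -- the limit is real
  set L : ℂ := κ₀ + (m : ℂ) * ((ρ⁻¹ : ℝ) : ℂ) * Real.eulerMascheroniConstant with hL
  have h2 : Tendsto (fun y : ℝ => M lm (cE a b) ρ⁻¹ y - m * ρ⁻¹ * Real.log y) atTop
      (𝓝 L.re) := by
    have := (Complex.continuous_re.tendsto L).comp hlim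
    refine this.congr fun y => ?_
    simp only [Function.comp_apply, Complex.ofReal_re]
  have h3 : L.im = 0 := by
    have e1 : Tendsto (fun _ : ℝ => (0 : ℝ)) atTop (𝓝 L.im) := by
      have := (Complex.continuous_im.tendsto L).comp hlim
      refine this.congr fun y => ?_
      simp only [Function.comp_apply, Complex.ofReal_im]
    exact tendsto_nhds_unique e1 tendsto_const_nhds
  refine ⟨L.re, h2, ?_⟩
  have h4 : ((L.re : ℝ) : ℂ) = L := by
    apply Complex.ext
    · rw [Complex.ofReal_re]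
    · rw [Complex.ofReal_im, h3]
  have hs0 : small a b 0 ≠ 0 := by
    have := small_ne_zero_real (a := a) (b := b) (w := 0) le_rfl
    simpa using this
  rw [Complex.ofReal_exp, h4, hL, Complex.exp_add]
  rw [hg0, Complex.exp_add, Pool.Agent.W187.S2.exp_sig, ← mul_assoc] at hκ
  have h5 := mul_right_cancel₀ hs0 hκ
  have h6 : Complex.exp ((Real.log 2 / 2 : ℝ) : ℂ) = ((√2 : ℝ) : ℂ) := by
    rw [← Complex.ofReal_exp]
    have h4 : Real.exp (Real.log 2 / 2) = √2 := by
      rw [Real.sqrt_eq_rpow, Real.rpow_def_of_pos two_pos]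
      congr 1; ring
    rw [h4]
  rw [h6] at h5
  push_cast at h5 ⊢
  rw [mul_right_comm, h5]

/-- **The limit of the finite sums.** -/
theorem Sr_lim (hΔ : 4 * a ^ 3 + 27 * b ^ 2 ≠ 0) (hrs : Tendsto (rsSum a b) atTop (𝓝 0))
    (hF : IsLSeries a b F) {ρ ρ' : ℝ} (hρ : 1 < ρ) (hρ' : ρ < ρ') {m : ℕ}
    (hm : analyticOrderAt F 1 = m)
    (hz : ∀ s : ℂ, s ≠ 1 → |(s - 1).arg| < Real.pi / (2 * ρ) → F s ≠ 0) :
    ∃ κ : ℝ, Tendsto (fun X : ℝ => Sr a b ρ ρ' X - m * Real.log (Real.log X)) atTop (𝓝 κ) ∧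
      (Real.exp κ : ℂ) * (iteratedDeriv m F 1 / (m.factorial : ℂ)) =
        ((√2 * Real.exp (m * ρ⁻¹ * Real.eulerMascheroniConstant) : ℝ) : ℂ) := by
  have hρ0 : 0 < ρ := by linarith
  obtain ⟨κ, h1, h2⟩ := curve_lim hΔ hrs hF hρ hm hz
  refine ⟨κ, ?_, h2⟩
  have e1 : Tendsto (fun X : ℝ => Real.log X ^ ρ) atTop atTop :=
    (tendsto_rpow_atTop hρ0).comp Real.tendsto_log_atTop
  have h3 := (h1.comp e1).add (Sr_close' a b hρ hρ')
  rw [add_zero] at h3
  refine h3.congr' ?_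
  filter_upwards [eventually_gt_atTop 1] with X hX
  have hT : 0 < Real.log X := Real.log_pos hX
  simp only [Function.comp_apply]
  rw [Real.log_rpow hT]
  field_simp
  ring

end Pool.Agent.TH942.SL
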