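import Pool.Agent.H21.L.R_seed8.TH942.SL.Up

/-!
# Zero-free sectors imply the asymptotic formula for the means: the line integral
-/

set_option autoImplicit false

open MeasureTheory Filter Topology Set Complex
open Pool.Agent.TH942.LS (Dat P P_le Cont Qf)

namespace Pool.Agent.TH942.SL

variable {α : ℝ} {lam c : ℕ → ℝ} {δ σ : ℝ} {Ψ Kf : ℂ → ℂ}

/-- the logarithmic main term -/
noncomputable def gl (z : ℂ) : ℂ := (1 - log z) / z ^ 2

lemma rpow_neg_two {x : ℝ} (hx : 0 ≤ x) : x ^ (-(2 : ℝ)) = (x ^ 2)⁻¹ := by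
  rw [Real.rpow_neg hx]
  norm_num

lemma gl_bound (h0 : 0 < α) {r : ℝ} (hr : 0 < r) :
    ∃ C : ℝ, 0 ≤ C ∧ ∀ z : ℂ, r ≤ ‖z‖ → ‖gl z‖ ≤ C * ‖z‖ ^ (-(2 - α)) := by
  have hpi := Real.pi_pos
  refine ⟨(1 + Real.pi + |Real.log r|) * r ^ (-α) + 1 / α, by positivity, fun z hz => ?_⟩
  have hn : 0 < ‖z‖ := hr.trans_le hz
  have hrp : 0 < r ^ α := Real.rpow_pos_of_pos hr _
  have e1 : ‖log z‖ ≤ |Real.log ‖z‖| + Real.pi := by
    have := Complex.norm_le_abs_re_add_abs_im (log z)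
    rw [Complex.log_re, Complex.log_im] at this
    have := Complex.abs_arg_le_pi z
    linarith
  have e2 : |Real.log ‖z‖| ≤ |Real.log r| + ‖z‖ ^ α / α := by
    have e3 : Real.log ‖z‖ ≤ ‖z‖ ^ α / α := Real.log_le_rpow_div hn.le h0
    have e4 : Real.log r ≤ Real.log ‖z‖ := Real.log_le_log hr hz
    have e5 : 0 ≤ ‖z‖ ^ α / α := by positivity
    have e6 := neg_abs_le (Real.log r)
    have e7 := abs_nonneg (Real.log r)
    rw [abs_le]
    constructor <;> linarith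
  have e3 : 1 ≤ r ^ (-α) * ‖z‖ ^ α := by
    rw [Real.rpow_neg hr.le, ← div_eq_inv_mul, le_div_iff₀ hrp, one_mul]
    exact Real.rpow_le_rpow hr.le hz h0.le
  have e4 : 1 + ‖log z‖ ≤ ((1 + Real.pi + |Real.log r|) * r ^ (-α) + 1 / α) * ‖z‖ ^ α := by
    have e5 : (1 + Real.pi + |Real.log r|) * 1 ≤
        (1 + Real.pi + |Real.log r|) * (r ^ (-α) * ‖z‖ ^ α) :=
      mul_le_mul_of_nonneg_left e3 (by positivity)
    calc 1 + ‖log z‖ ≤ (1 + Real.pi + |Real.log r|) * 1 + ‖z‖ ^ α / α := by linarith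
      _ ≤ (1 + Real.pi + |Real.log r|) * (r ^ (-α) * ‖z‖ ^ α) + ‖z‖ ^ α / α := by linarith
      _ = _ := by ring
  unfold gl
  rw [norm_div, norm_pow, div_le_iff₀ (by positivity)]
  have e5 : ‖z‖ ^ (-(2 - α)) * ‖z‖ ^ 2 = ‖z‖ ^ α := by
    rw [← Real.rpow_natCast ‖z‖ 2, ← Real.rpow_add hn]
    congr 1
    push_cast
    ring
  rw [mul_assoc, e5]
  refine (norm_sub_le _ _).trans ?_
  rwa [norm_one]

lemma gl_diff {z : ℂ} (hz : 0 < z.re) : DifferentiableAt ℂ gl z := by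
  unfold gl
  have e1 : DifferentiableAt ℂ (fun z : ℂ => 1 - log z) z :=
    (Complex.hasDerivAt_log (slit hz)).differentiableAt.const_sub 1
  have e2 : DifferentiableAt ℂ (fun z : ℂ => z ^ 2) z := by fun_prop
  exact e1.div e2 (pow_ne_zero 2 (ne_zero' hz))

/-- the bound of the remainder -/
theorem rem_bound {m : ℝ} (D : Dat lam c δ σ) (H : Cont lam c σ 0 Ψ Kf) (h0 : 0 < α) (h1 : α < 1)
    {f : ℂ → ℂ} {x₀ : ℝ} (hx1 : 1 ≤ x₀)
    (hx₀ : ∀ z : ℂ, 0 < z.re → x₀ ≤ ‖z‖ → σ + 1 ≤ kap α * ‖z‖ ^ α)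
    (hff : ∀ v : ℂ, 0 < v.re → x₀ ≤ ‖v‖ → f v = f₀ lam c α v)
    {r C₁ C₂ C₃ : ℝ} (hr : 0 < r) (hC1 : 0 ≤ C₁) (hC2 : 0 ≤ C₂) (hC3 : 0 ≤ C₃)
    (hnear : ∀ v : ℂ, 0 < v.re → ‖v‖ ≤ r →
      ‖f v + m * α * log v‖ ≤ C₁ ∧ ‖qf Ψ Kf α v + m * α / v‖ ≤ C₁ / ‖v‖)
    (hq : ∀ v : ℂ, 0 < v.re → r ≤ ‖v‖ → ‖qf Ψ Kf α v‖ ≤ C₂ * (1 + 1 / v.re))
    (hf : ∀ v : ℂ, 0 < v.re → r ≤ ‖v‖ → ‖f v‖ ≤ C₃ * (1 + 1 / v.re)) :
    ∃ C : ℝ, 0 ≤ C ∧ ∀ z : ℂ, 0 < z.re → z.re ≤ x₀ →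
      ‖hh f (qf Ψ Kf α) z - m * α * gl z‖ ≤
        C * (1 / ‖z‖ ^ 2 + 1 / z.re * (1 + |z.im|) ^ (-(2 - α))) := by
  have hx00 : 0 < x₀ := by linarith
  have hS := S₀_nonneg lam c σ
  have hδ := D.δ0
  obtain ⟨Cg, hCg, hgl⟩ := gl_bound h0 hr
  set p : ℝ := 2 - α with hp
  have hp0 : 0 ≤ p := by rw [hp]; linarith
  set B : ℝ := (S₀ lam c σ + α * (2 / δ * S₀ lam c σ)) * (1 + 1 / x₀) ^ p * x₀ with hB
  have hB0 : 0 ≤ B := by positivity
  set Bg : ℝ := |m| * α * (Cg * (1 + 1 / r) ^ p) * x₀ with hBg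
  have hBg0 : 0 ≤ Bg := by positivity
  set Bm : ℝ := (C₃ / r ^ 2 + C₂ / r) * (x₀ + 1) * (1 + x₀) ^ p with hBm
  have hBm0 : 0 ≤ Bm := by positivity
  refine ⟨2 * C₁ + B + Bg + Bm, by positivity, fun z hz hzx => ?_⟩
  have hn := norm_pos' hz
  have ht : 0 < 1 + |z.im| := by positivity
  have htp : 0 < (1 + |z.im|) ^ (-p) := Real.rpow_pos_of_pos ht _
  have hz1 : 0 < 1 / z.re := by positivity
  have hN : 0 < 1 / ‖z‖ ^ 2 := by positivity
  have hxz : 1 ≤ x₀ * (1 / z.re) := by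
    rw [mul_one_div, le_div_iff₀ hz, one_mul]
    exact hzx
  rcases le_total ‖z‖ r with h | h
  · obtain ⟨e1, e2⟩ := hnear z hz h
    have e3 : hh f (qf Ψ Kf α) z - m * α * gl z =
        (f z + m * α * log z) / z ^ 2 - (qf Ψ Kf α z + m * α / z) / z := by
      unfold hh gl
      have := ne_zero' hz
      field_simp
      ring
    rw [e3]
    have e4 : ‖(f z + m * α * log z) / z ^ 2‖ ≤ C₁ * (1 / ‖z‖ ^ 2) := by
      rw [norm_div, norm_pow, mul_one_div]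
      exact div_le_div_of_nonneg_right e1 (by positivity)
    have e5 : ‖(qf Ψ Kf α z + m * α / z) / z‖ ≤ C₁ * (1 / ‖z‖ ^ 2) := by
      rw [norm_div, mul_one_div]
      calc _ ≤ C₁ / ‖z‖ / ‖z‖ := div_le_div_of_nonneg_right e2 hn.le
        _ = _ := by rw [div_div, sq]
    calc _ ≤ C₁ * (1 / ‖z‖ ^ 2) + C₁ * (1 / ‖z‖ ^ 2) := (norm_sub_le _ _).trans (add_le_add e4 e5)
      _ = (2 * C₁) * (1 / ‖z‖ ^ 2) := by ring
      _ ≤ (2 * C₁ + B + Bg + Bm) * (1 / ‖z‖ ^ 2 + 1 / z.re * (1 + |z.im|) ^ (-p)) := by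
        refine mul_le_mul (by linarith) ?_ hN.le (by positivity)
        have : 0 < 1 / z.re * (1 + |z.im|) ^ (-p) := by positivity
        linarith
  · -- the logarithmic term
    have e1 : ‖(m : ℂ) * α * gl z‖ ≤ Bg * (1 / z.re * (1 + |z.im|) ^ (-p)) := by
      have e2 := hgl z h
      have e3 := nb hr hp0 h
      rw [norm_mul, norm_mul, Complex.norm_real, Complex.norm_real, Real.norm_eq_abs,
        Real.norm_eq_abs, abs_of_pos h0]
      calc |m| * α * ‖gl z‖ ≤ |m| * α * (Cg * ((1 + 1 / r) ^ p * (1 + |z.im|) ^ (-p))) := by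
            gcongr
            exact e2.trans (mul_le_mul_of_nonneg_left e3 hCg)
        _ = (|m| * α * (Cg * (1 + 1 / r) ^ p) * (1 + |z.im|) ^ (-p)) * 1 := by ring
        _ ≤ (|m| * α * (Cg * (1 + 1 / r) ^ p) * (1 + |z.im|) ^ (-p)) * (x₀ * (1 / z.re)) := by
            gcongr
        _ = _ := by rw [hBg]; ring
    have e2 : ‖hh f (qf Ψ Kf α) z‖ ≤ (B + Bm) * (1 / z.re * (1 + |z.im|) ^ (-p)) := by
      rcases le_total x₀ ‖z‖ with h2 | h2
      · have e3 := hx₀ z hz h2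
        have e4 : hh f (qf Ψ Kf α) z = hh (f₀ lam c α) (f₁ lam c α) z := by
          unfold hh
          rw [hff z hz h2, qf_far H h0 h1 hz e3]
        have e5 := hh_bound D h0 h1 hz (by linarith) e3
        have e6 := nb hx00 hp0 h2
        rw [e4]
        calc _ ≤ (S₀ lam c σ + α * (2 / δ * S₀ lam c σ)) * ‖z‖ ^ (-p) := e5
          _ ≤ (S₀ lam c σ + α * (2 / δ * S₀ lam c σ)) *
              ((1 + 1 / x₀) ^ p * (1 + |z.im|) ^ (-p)) := by gcongr
          _ = ((S₀ lam c σ + α * (2 / δ * S₀ lam c σ)) *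
              ((1 + 1 / x₀) ^ p * (1 + |z.im|) ^ (-p))) * 1 := by ring
          _ ≤ ((S₀ lam c σ + α * (2 / δ * S₀ lam c σ)) *
              ((1 + 1 / x₀) ^ p * (1 + |z.im|) ^ (-p))) * (x₀ * (1 / z.re)) := by gcongr
          _ = B * (1 / z.re * (1 + |z.im|) ^ (-p)) := by rw [hB]; ring
          _ ≤ _ := by
            refine mul_le_mul_of_nonneg_right (by linarith) (by positivity)
      · have e3 := hf z hz h
        have e4 := hq z hz h
        have e5 : 1 + 1 / z.re ≤ (x₀ + 1) * (1 / z.re) := by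
          rw [add_mul, one_mul]
          linarith
        have e6 : 1 ≤ (1 + x₀) ^ p * (1 + |z.im|) ^ (-p) := by
          have e7 : 1 + |z.im| ≤ 1 + x₀ := by
            have := abs_im_le_norm z
            linarith
          rw [Real.rpow_neg ht.le, ← div_eq_mul_inv, le_div_iff₀ (by positivity), one_mul]
          exact Real.rpow_le_rpow ht.le e7 hp0
        unfold hh
        calc ‖f z / z ^ 2 - qf Ψ Kf α z / z‖ ≤ ‖f z‖ / ‖z‖ ^ 2 + ‖qf Ψ Kf α z‖ / ‖z‖ := by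
              refine (norm_sub_le _ _).trans (le_of_eq ?_)
              rw [norm_div, norm_div, norm_pow]
          _ ≤ (C₃ * (1 + 1 / z.re)) / r ^ 2 + (C₂ * (1 + 1 / z.re)) / r := by
              gcongr
          _ = (C₃ / r ^ 2 + C₂ / r) * (1 + 1 / z.re) * 1 := by ring
          _ ≤ (C₃ / r ^ 2 + C₂ / r) * ((x₀ + 1) * (1 / z.re)) *
              ((1 + x₀) ^ p * (1 + |z.im|) ^ (-p)) := by gcongr
          _ = Bm * (1 / z.re * (1 + |z.im|) ^ (-p)) := by rw [hBm]; ring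
          _ ≤ _ := by
            refine mul_le_mul_of_nonneg_right (by linarith) (by positivity)
    calc _ ≤ (B + Bm) * (1 / z.re * (1 + |z.im|) ^ (-p)) +
          Bg * (1 / z.re * (1 + |z.im|) ^ (-p)) := (norm_sub_le _ _).trans (add_le_add e2 e1)
      _ = (B + Bg + Bm) * (1 / z.re * (1 + |z.im|) ^ (-p)) := by ring
      _ ≤ _ := by
        refine mul_le_mul (by linarith) (by linarith) (by positivity) (by positivity)

/-- **The asymptotic formula for the means.** -/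
theorem up (D : Dat lam c δ σ) (H : Cont lam c σ 0 Ψ Kf) (h0 : 0 < α) (h1 : α < 1)
    (hne : ∀ v : ℂ, 0 < v.re → Ψ (v ^ (α : ℂ)) ≠ 0) {m r C : ℝ} (hr : 0 < r) {G : ℂ → ℂ}
    (hG : ∀ s : ℂ, 0 < s.re → HasDerivAt G (Kf s) s)
    (hGb : ∀ s : ℂ, 0 < s.re → kap α * ‖s‖ ≤ s.re → ‖s‖ ≤ r → ‖G s‖ ≤ C)
    (hKb : ∀ s : ℂ, 0 < s.re → kap α * ‖s‖ ≤ s.re → ‖s‖ ≤ r → ‖Kf s‖ ≤ C / ‖s‖)
    (hΨb : ∀ s : ℂ, 0 < s.re → kap α * ‖s‖ ≤ s.re → ‖s‖ ≤ r → ‖deriv Ψ s / Ψ s - m / s‖ ≤ C) :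
    ∃ C' : ℝ, ∀ y : ℝ, 1 ≤ y → |M lam c α y - m * α * Real.log y| ≤ C' := by
  obtain ⟨x₀, hx1, hx₀⟩ := exists_abscissa h0 h1 σ
  obtain ⟨f, hf, hff⟩ := exists_f D H h0 h1 hne hx1 hx₀
  obtain ⟨r₂, C₁, hr2, hr21, hC1, hnear⟩ := near h0 h1 hf hr hG hGb hKb hΨb
  obtain ⟨C₂, hC2, hq⟩ := qf_mid D H h0 h1 hne hx1 hx₀ hr2
  obtain ⟨C₃, hC3, hfm⟩ := f_mid D h0 h1 hf hx1 hx₀ hff hC2 hq
  obtain ⟨C₄, hC4, hrem⟩ := rem_bound D H h0 h1 hx1 hx₀ hff hr2 hC1 hC2 hC3 hnear hq hfm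
  set p : ℝ := 2 - α with hp
  have hp1 : 1 < p := by rw [hp]; linarith
  have hp0 : 0 ≤ p := by linarith
  have hpi := Real.pi_pos
  set L₀ : ℂ := V 1 (fun z => exp z * gl z) with hL₀
  set Ip : ℝ := ∫ t : ℝ, (1 + |t|) ^ (-p) with hIp
  have hre : ∀ x t : ℝ, ((x : ℂ) + t * I).re = x := fun x t => by simp
  have him : ∀ x t : ℝ, ((x : ℂ) + t * I).im = t := fun x t => by simp
  set h : ℂ → ℂ := hh f (qf Ψ Kf α) with hh'
  have hhd : ∀ z : ℂ, 0 < z.re → DifferentiableAt ℂ h z := fun z hz =>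
    hh_diff hz (hf z hz).differentiableAt (qf_diff H h0 h1 hne hz)
  set C₅ : ℝ := (2 * Real.pi)⁻¹ * (Real.exp 1 * C₄ * (Real.pi + Ip)) with hC5
  refine ⟨C₅ + |m| * α * ‖L₀‖, fun y hy => ?_⟩
  have hy0 : 0 < y := by linarith
  have hyc : (y : ℂ) ≠ 0 := by exact_mod_cast hy0.ne'
  set c₀ : ℝ := 1 / y with hc₀
  have hc00 : 0 < c₀ := by positivity
  have hc01 : c₀ ≤ 1 := by rw [hc₀, div_le_one hy0]; exact hy
  have hc0x : c₀ ≤ x₀ := hc01.trans hx1
  have hcy : c₀ * y = 1 := by rw [hc₀]; field_simp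
  -- the bounds on the strip
  obtain ⟨Cg, hCg, hgl⟩ := gl_bound h0 hc00
  have hrb : ∀ z : ℂ, c₀ ≤ z.re → z.re ≤ x₀ → ‖h z - m * α * gl z‖ ≤
      (C₄ * ((1 + 1 / c₀) ^ (2 : ℝ) + 1 / c₀)) * (1 + |z.im|) ^ (-p) := by
    intro z hz1 hz2
    have hz0 : 0 < z.re := hc00.trans_le hz1
    have hn := norm_pos' hz0
    have ht : (1 : ℝ) ≤ 1 + |z.im| := by have := abs_nonneg z.im; linarith
    have e1 := hrem z hz0 hz2
    have e2 : 1 / ‖z‖ ^ 2 ≤ (1 + 1 / c₀) ^ (2 : ℝ) * (1 + |z.im|) ^ (-p) := by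
      have e3 := nb hc00 (by norm_num : (0 : ℝ) ≤ 2) (hz1.trans (re_le_norm z))
      rw [rpow_neg_two hn.le, ← one_div] at e3
      refine e3.trans (mul_le_mul_of_nonneg_left ?_ (by positivity))
      exact Real.rpow_le_rpow_of_exponent_le ht (by linarith)
    have e4 : 1 / z.re ≤ 1 / c₀ := one_div_le_one_div_of_le hc00 hz1
    calc _ ≤ C₄ * (1 / ‖z‖ ^ 2 + 1 / z.re * (1 + |z.im|) ^ (-p)) := e1
      _ ≤ C₄ * ((1 + 1 / c₀) ^ (2 : ℝ) * (1 + |z.im|) ^ (-p) +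
          1 / c₀ * (1 + |z.im|) ^ (-p)) := by gcongr
      _ = _ := by ring
  have hgb : ∀ z : ℂ, c₀ ≤ z.re → ‖(m : ℂ) * α * gl z‖ ≤
      (|m| * α * (Cg * (1 + 1 / c₀) ^ p)) * (1 + |z.im|) ^ (-p) := by
    intro z hz1
    have e0 := hz1.trans (re_le_norm z)
    have e2 := hgl z e0
    have e3 := nb hc00 hp0 e0
    rw [norm_mul, norm_mul, Complex.norm_real, Complex.norm_real, Real.norm_eq_abs,
      Real.norm_eq_abs, abs_of_pos h0]
    calc |m| * α * ‖gl z‖ ≤ |m| * α * (Cg * ((1 + 1 / c₀) ^ p * (1 + |z.im|) ^ (-p))) := by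
          gcongr
          exact e2.trans (mul_le_mul_of_nonneg_left e3 hCg)
      _ = _ := by ring
  set Bh : ℝ := C₄ * ((1 + 1 / c₀) ^ (2 : ℝ) + 1 / c₀) + |m| * α * (Cg * (1 + 1 / c₀) ^ p) with hBh
  have hBh0 : 0 ≤ Bh := by positivity
  have hhb : ∀ z : ℂ, c₀ ≤ z.re → z.re ≤ x₀ → ‖h z‖ ≤ Bh * (1 + |z.im|) ^ (-p) := by
    intro z hz1 hz2
    have e1 := norm_add_le (h z - m * α * gl z) ((m : ℂ) * α * gl z)
    rw [sub_add_cancel] at e1
    refine e1.trans ((add_le_add (hrb z hz1 hz2) (hgb z hz1)).trans (le_of_eq ?_))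
    rw [hBh]
    ring
  -- the formula on the line `x₀`
  have a1 : ((y * M lam c α y : ℝ) : ℂ) = V x₀ (fun z => exp (z * y) * h z) := by
    rw [yM_eq D h0 h1 hx1 hy0 hx₀]
    unfold V
    congr 2
    funext t
    have e1 : 0 < ((x₀ : ℂ) + t * I).re := by rw [hre]; linarith
    have e2 : x₀ ≤ ‖(x₀ : ℂ) + t * I‖ := by
      have := re_le_norm ((x₀ : ℂ) + t * I)
      rwa [hre] at this
    rw [hh']
    unfold hh
    simp only
    rw [hff _ e1 e2, qf_far H h0 h1 e1 (hx₀ _ e1 e2)]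
  have a2 : V x₀ (fun z => exp (z * y) * h z) = V c₀ (fun z => exp (z * y) * h z) := by
    refine (shift hp1 hc0x (B := Real.exp (x₀ * y) * Bh) (fun s hs _ => ?_)
      fun s hs hs2 => ?_).symm
    · exact DifferentiableAt.mul (by fun_prop) (hhd s (hc00.trans_le hs))
    · rw [norm_mul, Complex.norm_exp, Complex.re_mul_ofReal, mul_assoc]
      refine mul_le_mul (Real.exp_le_exp.2 ?_) (hhb s hs hs2) (norm_nonneg _) (Real.exp_pos _).le
      exact mul_le_mul_of_nonneg_right hs2 hy0.le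
  -- splitting
  have hexp : ∀ t : ℝ, ‖exp (((c₀ : ℂ) + t * I) * y)‖ = Real.exp 1 := fun t => by
    rw [Complex.norm_exp, Complex.re_mul_ofReal, hre, hcy]
  have i1 : Integrable fun t : ℝ => exp (((c₀ : ℂ) + t * I) * y) *
      (h (c₀ + t * I) - m * α * gl (c₀ + t * I)) := by
    refine line_int (H := fun z => exp (z * y) * (h z - m * α * gl z)) (p := p)
      (B := Real.exp 1 * (C₄ * ((1 + 1 / c₀) ^ (2 : ℝ) + 1 / c₀))) hp1 (fun s hs => ?_)
      (fun s hs => ?_)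
    · have hs0 : 0 < s.re := by rw [hs]; exact hc00
      have e2 : DifferentiableAt ℂ (fun z : ℂ => exp (z * y)) s := by fun_prop
      exact (e2.mul ((hhd s hs0).sub ((gl_diff hs0).const_mul _))).continuousAt
    · rw [norm_mul, Complex.norm_exp, Complex.re_mul_ofReal, hs, hcy, mul_assoc (Real.exp 1)]
      exact mul_le_mul_of_nonneg_left (hrb s hs.ge (by rw [hs]; exact hc0x)) (Real.exp_pos _).le
  have i2 : Integrable fun t : ℝ => exp (((c₀ : ℂ) + t * I) * y) *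
      (m * α * gl (c₀ + t * I)) := by
    refine line_int (H := fun z => exp (z * y) * (m * α * gl z)) (p := p)
      (B := Real.exp 1 * (|m| * α * (Cg * (1 + 1 / c₀) ^ p))) hp1 (fun s hs => ?_)
      (fun s hs => ?_)
    · have hs0 : 0 < s.re := by rw [hs]; exact hc00
      have e2 : DifferentiableAt ℂ (fun z : ℂ => exp (z * y)) s := by fun_prop
      exact (e2.mul ((gl_diff hs0).const_mul _)).continuousAt
    · rw [norm_mul, Complex.norm_exp, Complex.re_mul_ofReal, hs, hcy, mul_assoc (Real.exp 1)]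
      exact mul_le_mul_of_nonneg_left (hgb s hs.ge) (Real.exp_pos _).le
  have a3 : V c₀ (fun z => exp (z * y) * h z) =
      V c₀ (fun z => exp (z * y) * (h z - m * α * gl z)) +
      V c₀ (fun z => exp (z * y) * (m * α * gl z)) := by
    unfold V
    rw [← mul_add, ← integral_add i1 i2]
    congr 2
    funext t
    ring
  -- the main term
  have a4 : V c₀ (fun z => exp (z * y) * (m * α * gl z)) =
      y * (m * α * (L₀ + Real.log y)) := by
    rw [V_scale hy0, hcy]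
    have j1 : Integrable fun t : ℝ => exp (((1 : ℝ) : ℂ) + t * I) * gl (((1 : ℝ) : ℂ) + t * I) := by
      obtain ⟨Cg', hCg', hgl'⟩ := gl_bound (α := α) h0 one_pos
      refine line_int (H := fun z => exp z * gl z) (p := p)
        (B := Real.exp 1 * (Cg' * (1 + 1 / 1) ^ p)) hp1 (fun s hs => ?_) (fun s hs => ?_)
      · have hs0 : 0 < s.re := by rw [hs]; exact one_pos
        have e2 : DifferentiableAt ℂ (fun z : ℂ => exp z) s := by fun_prop
        exact (e2.mul (gl_diff hs0)).continuousAt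
      · have e0 : 1 ≤ ‖s‖ := by rw [← hs]; exact re_le_norm s
        rw [norm_mul, Complex.norm_exp, hs, mul_assoc]
        refine mul_le_mul_of_nonneg_left ((hgl' s e0).trans ?_) (Real.exp_pos _).le
        rw [mul_assoc]
        exact mul_le_mul_of_nonneg_left (nb one_pos hp0 e0) hCg'
    have j2 : Integrable fun t : ℝ => exp (((1 : ℝ) : ℂ) + t * I) / (((1 : ℝ) : ℂ) + t * I) ^ 2 := by
      refine line_int (H := fun z => exp z / z ^ 2) (p := 2)
        (B := Real.exp 1 * (1 + 1 / 1) ^ (2 : ℝ)) (by norm_num) (fun s hs => ?_) (fun s hs => ?_)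
      · have hs0 : s ≠ 0 := fun h => by rw [h] at hs; simp at hs
        have e2 : DifferentiableAt ℂ (fun z : ℂ => exp z) s := by fun_prop
        have e3 : DifferentiableAt ℂ (fun z : ℂ => z ^ 2) s := by fun_prop
        exact (e2.div e3 (pow_ne_zero 2 hs0)).continuousAt
      · have e0 : 1 ≤ ‖s‖ := by rw [← hs]; exact re_le_norm s
        have e1 := nb one_pos (by norm_num : (0 : ℝ) ≤ 2) e0
        rw [rpow_neg_two (norm_nonneg s)] at e1
        rw [norm_div, Complex.norm_exp, hs, norm_pow, div_eq_mul_inv, mul_assoc]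
        exact mul_le_mul_of_nonneg_left e1 (Real.exp_pos _).le
    have hV1 := V_one
    rw [hL₀]
    unfold V at hV1 ⊢
    have e1 : ∀ t : ℝ, exp ((((1 : ℝ) : ℂ) + t * I) / y * y) *
        (m * α * gl ((((1 : ℝ) : ℂ) + t * I) / y)) / y =
        (y * m * α) * (exp (((1 : ℝ) : ℂ) + t * I) * gl (((1 : ℝ) : ℂ) + t * I)) +
        (y * m * α * Real.log y) * (exp (((1 : ℝ) : ℂ) + t * I) / (((1 : ℝ) : ℂ) + t * I) ^ 2) := by
      intro t
      set z : ℂ := ((1 : ℝ) : ℂ) + t * I with hz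
      have hz0 : z ≠ 0 := fun h => by
        have := congrArg Complex.re h
        rw [hz, hre] at this
        simp at this
      have e2 : log (z / y) = log z - Real.log y := by
        have e3 : z / y = ((y⁻¹ : ℝ) : ℂ) * z := by
          push_cast
          field_simp
        rw [e3, Complex.log_ofReal_mul (by positivity) hz0, Real.log_inv]
        push_cast
        ring
      unfold gl
      rw [e2, div_mul_cancel₀ _ hyc]
      field_simp
      ring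
    simp only [e1]
    rw [integral_add (j1.const_mul _) (j2.const_mul _), integral_const_mul, integral_const_mul]
    have e2 : ((2 * Real.pi)⁻¹ : ℝ) * ((y * m * α) * (∫ t : ℝ, exp (((1 : ℝ) : ℂ) + t * I) *
        gl (((1 : ℝ) : ℂ) + t * I)) + (y * m * α * Real.log y) * ∫ t : ℝ,
          exp (((1 : ℝ) : ℂ) + t * I) / (((1 : ℝ) : ℂ) + t * I) ^ 2) =
        (y * m * α) * (((2 * Real.pi)⁻¹ : ℝ) * ∫ t : ℝ, exp (((1 : ℝ) : ℂ) + t * I) *
        gl (((1 : ℝ) : ℂ) + t * I)) + (y * m * α * Real.log y) * (((2 * Real.pi)⁻¹ : ℝ) *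
          ∫ t : ℝ, exp (((1 : ℝ) : ℂ) + t * I) / (((1 : ℝ) : ℂ) + t * I) ^ 2) := by ring
    rw [e2, hV1]
    ring
  -- the remainder
  have a5 : ‖V c₀ (fun z => exp (z * y) * (h z - m * α * gl z))‖ ≤ C₅ * y := by
    have k1 : Integrable fun t : ℝ => (1 + (y * t) ^ 2)⁻¹ :=
      (integrable_inv_one_add_sq).comp_mul_left' hy0.ne'
    have k2 := decay_int hp1
    have k3 : ∫ t : ℝ, (1 + (y * t) ^ 2)⁻¹ = y⁻¹ * Real.pi := by
      have := Measure.integral_comp_mul_left (fun t : ℝ => (1 + t ^ 2)⁻¹) y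
      rw [this, integral_univ_inv_one_add_sq, abs_of_pos (by positivity), smul_eq_mul]
    have e1 := norm_V_le (H := fun z => exp (z * y) * (h z - m * α * gl z)) (c := c₀)
      (g := fun t => (Real.exp 1 * C₄ * y ^ 2) * (1 + (y * t) ^ 2)⁻¹ +
        (Real.exp 1 * C₄ * y) * (1 + |t|) ^ (-p)) ((k1.const_mul _).add (k2.const_mul _))
      fun t => by
        have e2 := hrem (c₀ + t * I) (by rw [hre]; exact hc00) (by rw [hre]; exact hc0x)
        rw [hre, him] at e2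
        rw [norm_mul, hexp]
        have e3 : ‖(c₀ : ℂ) + t * I‖ ^ 2 = c₀ ^ 2 + t ^ 2 := by
          rw [← Complex.normSq_eq_norm_sq, Complex.normSq_add_mul_I]
        have e4 : 1 / (c₀ ^ 2 + t ^ 2) = y ^ 2 * (1 + (y * t) ^ 2)⁻¹ := by
          rw [hc₀]
          field_simp
        rw [e3, e4] at e2
        have e5 : 1 / c₀ = y := by rw [hc₀, one_div_one_div]
        rw [e5] at e2
        calc _ ≤ Real.exp 1 * (C₄ * (y ^ 2 * (1 + (y * t) ^ 2)⁻¹ + y * (1 + |t|) ^ (-p))) :=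
              mul_le_mul_of_nonneg_left e2 (Real.exp_pos _).le
          _ = _ := by ring
    rw [integral_add (k1.const_mul _) (k2.const_mul _), integral_const_mul, integral_const_mul,
      k3] at e1
    refine e1.trans (le_of_eq ?_)
    rw [hC5]
    have : y ^ 2 * y⁻¹ = y := by field_simp
    calc _ = (2 * Real.pi)⁻¹ * (Real.exp 1 * C₄ * (y ^ 2 * y⁻¹) * Real.pi +
          Real.exp 1 * C₄ * y * Ip) := by ring
      _ = _ := by rw [this]; ring
  -- conclusion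
  have a6 : ((y * (M lam c α y - m * α * Real.log y) : ℝ) : ℂ) =
      V c₀ (fun z => exp (z * y) * (h z - m * α * gl z)) + y * (m * α * L₀) := by
    have : ((y * M lam c α y : ℝ) : ℂ) = V c₀ (fun z => exp (z * y) * (h z - m * α * gl z)) +
        y * (m * α * (L₀ + Real.log y)) := by rw [a1, a2, a3, a4]
    push_cast at this ⊢
    linear_combination this
  have a7 : y * |M lam c α y - m * α * Real.log y| ≤ C₅ * y + y * (|m| * α * ‖L₀‖) := by
    have e1 := congrArg norm a6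
    rw [Complex.norm_real, Real.norm_eq_abs, abs_mul, abs_of_pos hy0] at e1
    rw [e1]
    refine (norm_add_le _ _).trans (add_le_add a5 (le_of_eq ?_))
    rw [norm_mul, norm_mul, norm_mul, Complex.norm_real, Complex.norm_real, Complex.norm_real,
      Real.norm_eq_abs, Real.norm_eq_abs, Real.norm_eq_abs, abs_of_pos h0, abs_of_pos hy0]
  have a8 : y * |M lam c α y - m * α * Real.log y| ≤ y * (C₅ + |m| * α * ‖L₀‖) := by
    rw [mul_add]
    linarith
  exact le_of_mul_le_mul_left a8 hy0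

end Pool.Agent.TH942.SL
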