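import Pool.Agent.H21.L.R_seed8.TH942.SL.Mean
import Pool.Agent.H21.L.R_seed8.TH942.SL.Prim
import Pool.Agent.H21.L.R_seed8.TH942.LS.Cone

/-!
# Small means imply zero-free sectors
-/

set_option autoImplicit false

open MeasureTheory Filter Topology Set Complex
open Pool.Agent.TH942.LS (Dat P P_le Cont)

namespace Pool.Agent.TH942.SL

variable {α : ℝ} {lam c : ℕ → ℝ} {δ σ : ℝ} {Ψ Kf : ℂ → ℂ}

/-- the integrals along the lines far to the right -/
theorem lines (D : Dat lam c δ σ) (h0 : 0 < α) (h1 : α < 1) {x₀ : ℝ} (hx1 : 1 ≤ x₀)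
    (hx₀ : ∀ z : ℂ, 0 < z.re → x₀ ≤ ‖z‖ → σ + 1 ≤ kap α * ‖z‖ ^ α) :
    ∃ (g : ℝ → ℂ) (K : ℝ), 0 ≤ K ∧ Continuous g ∧ (∀ y, y < 0 → g y = 0) ∧
      (∀ y, 0 < y → g y = ((y * M lam c α y : ℝ) : ℂ)) ∧
      (∀ y, ‖g y‖ ≤ K * Real.exp (x₀ * y)) ∧
      ∀ x, x₀ < x → ∀ s : ℝ, ∫ y : ℝ, exp (-((x + s * I) * y)) * g y =
        hh (f₀ lam c α) (f₁ lam c α) (x + s * I) := by
  have hx00 : 0 < x₀ := by linarith
  have hδ := D.δ0
  set h : ℂ → ℂ := hh (f₀ lam c α) (f₁ lam c α) with hh'
  set p : ℝ := 2 - α with hp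
  have hp1 : 1 < p := by rw [hp]; linarith
  set B : ℝ := (S₀ lam c σ + α * (2 / δ * S₀ lam c σ)) * (1 + 1 / x₀) ^ p with hB
  have hS := S₀_nonneg lam c σ
  have hB0 : 0 ≤ B := by positivity
  have hre : ∀ x t : ℝ, ((x : ℂ) + t * I).re = x := fun x t => by simp
  have him : ∀ x t : ℝ, ((x : ℂ) + t * I).im = t := fun x t => by simp
  have hpos : ∀ s : ℂ, x₀ ≤ s.re → 0 < s.re ∧ x₀ ≤ ‖s‖ := fun s hs =>
    ⟨by linarith, hs.trans (re_le_norm s)⟩
  have hb : ∀ s : ℂ, x₀ ≤ s.re → ‖h s‖ ≤ B * (1 + |s.im|) ^ (-p) := by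
    intro s hs
    obtain ⟨e1, e2⟩ := hpos s hs
    have e3 := hh_bound D h0 h1 e1 (by linarith) (hx₀ s e1 e2)
    have e4 := nb hx00 (by linarith : 0 ≤ p) e2
    calc ‖h s‖ ≤ (S₀ lam c σ + α * (2 / δ * S₀ lam c σ)) * ‖s‖ ^ (-p) := e3
      _ ≤ (S₀ lam c σ + α * (2 / δ * S₀ lam c σ)) *
          ((1 + 1 / x₀) ^ p * (1 + |s.im|) ^ (-p)) := by gcongr
      _ = _ := by rw [hB]; ring
  have hdf : ∀ s : ℂ, x₀ ≤ s.re → DifferentiableAt ℂ h s := by
    intro s hs
    obtain ⟨e1, e2⟩ := hpos s hs
    have e3 := hx₀ s e1 e2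
    have e4 := re_pow_ge h0 h1 e1
    exact hh_diff e1 (f₀_deriv D e1 (by linarith)).differentiableAt (f₁_diff D h0 h1 e1 e3)
  have hli : ∀ x, x₀ ≤ x → Integrable fun t : ℝ => h (x + t * I) := fun x hx =>
    line_int hp1 (fun s hs => (hdf s (by rw [hs]; exact hx)).continuousAt)
      fun s hs => hb s (by rw [hs]; exact hx)
  -- independence of the line
  have hind : ∀ y x : ℝ, x₀ ≤ x → V x₀ (fun z => exp (z * y) * h z) =
      V x (fun z => exp (z * y) * h z) := by
    intro y x hx
    refine shift hp1 hx (B := Real.exp (x * |y|) * B) (fun s hs _ => ?_) fun s hs hs2 => ?_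
    · exact DifferentiableAt.mul (by fun_prop) (hdf s hs)
    · rw [norm_mul, Complex.norm_exp, Complex.re_mul_ofReal, mul_assoc]
      refine mul_le_mul (Real.exp_le_exp.2 ?_) (hb s hs) (norm_nonneg _) (Real.exp_pos _).le
      have e1 : s.re * y ≤ s.re * |y| := mul_le_mul_of_nonneg_left (le_abs_self y) (hpos s hs).1.le
      have e2 : s.re * |y| ≤ x * |y| := mul_le_mul_of_nonneg_right hs2 (abs_nonneg y)
      linarith
  set K : ℝ := (2 * Real.pi)⁻¹ * ∫ t : ℝ, B * (1 + |t|) ^ (-p) with hK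
  have hI0 : 0 ≤ ∫ t : ℝ, B * (1 + |t|) ^ (-p) := integral_nonneg fun t => by positivity
  have hK0 : 0 ≤ K := by positivity
  have hnorm : ∀ y x : ℝ, x₀ ≤ x → ‖V x (fun z => exp (z * y) * h z)‖ ≤ K * Real.exp (x * y) := by
    intro y x hx
    have e1 := norm_V_le (H := fun z => exp (z * y) * h z) (c := x)
      (g := fun t => Real.exp (x * y) * (B * (1 + |t|) ^ (-p)))
      (((decay_int hp1).const_mul B).const_mul _) fun t => by
        have e2 := hb (x + t * I) (by rw [hre]; exact hx)
        rw [him] at e2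
        rw [norm_mul, Complex.norm_exp, Complex.re_mul_ofReal, hre]
        exact mul_le_mul_of_nonneg_left e2 (Real.exp_pos _).le
    rw [integral_const_mul] at e1
    refine e1.trans (le_of_eq ?_)
    rw [hK]
    ring
  set g : ℝ → ℂ := fun y => V x₀ (fun z => exp (z * y) * h z) with hg
  -- continuity
  have hgc : Continuous g := by
    have e1 : ∀ y : ℝ, g y = exp (x₀ * y) * (((2 * Real.pi)⁻¹ : ℝ) *
        ∫ t : ℝ, exp ((t : ℂ) * I * y) * h (x₀ + t * I)) := by
      intro y
      rw [hg]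
      simp only [V]
      have e2 : ∀ t : ℝ, exp (((x₀ : ℂ) + t * I) * y) * h (x₀ + t * I) =
          exp (x₀ * y) * (exp ((t : ℂ) * I * y) * h (x₀ + t * I)) := by
        intro t
        rw [← mul_assoc, ← Complex.exp_add]
        congr 2
        ring
      simp only [e2]
      rw [integral_const_mul]
      ring
    have e2 : Continuous fun y : ℝ => ∫ t : ℝ, exp ((t : ℂ) * I * y) * h (x₀ + t * I) := by
      refine continuous_of_dominated (bound := fun t => ‖h (x₀ + t * I)‖) (fun y => ?_)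
        (fun y => ae_of_all _ fun t => ?_) (hli x₀ le_rfl).norm (ae_of_all _ fun t => by fun_prop)
      · refine Continuous.aestronglyMeasurable (Continuous.mul (by fun_prop) ?_)
        exact line_cont fun s hs => (hdf s hs.ge).continuousAt
      · rw [norm_mul, Complex.norm_exp]
        have : ((t : ℂ) * I * y).re = 0 := by simp
        rw [this, Real.exp_zero, one_mul]
    have e3 : g = fun y : ℝ => exp (x₀ * y) * (((2 * Real.pi)⁻¹ : ℝ) *
        ∫ t : ℝ, exp ((t : ℂ) * I * y) * h (x₀ + t * I)) := funext e1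
    rw [e3]
    exact Continuous.mul (by fun_prop) (continuous_const.mul e2)
  -- negative `y`
  have hneg : ∀ y, y < 0 → g y = 0 := by
    intro y hy
    have e1 : ∀ᶠ x : ℝ in atTop, ‖g y‖ ≤ K * Real.exp (x * y) := by
      filter_upwards [eventually_ge_atTop x₀] with x hx
      rw [hg]
      simp only
      rw [hind y x hx]
      exact hnorm y x hx
    have e2 : Tendsto (fun x : ℝ => K * Real.exp (x * y)) atTop (𝓝 (K * 0)) := by
      refine Tendsto.const_mul K (Real.tendsto_exp_atBot.comp ?_)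
      exact tendsto_id.atTop_mul_const_of_neg hy
    rw [mul_zero] at e2
    exact norm_le_zero_iff.1 (ge_of_tendsto e2 e1)
  have hgpos : ∀ y, 0 < y → g y = ((y * M lam c α y : ℝ) : ℂ) := fun y hy =>
    (yM_eq D h0 h1 hx1 hy hx₀).symm
  refine ⟨g, K, hK0, hgc, hneg, hgpos, fun y => hnorm y x₀ le_rfl, fun x hx s => ?_⟩
  have hgi : Integrable fun y : ℝ => exp (-((x : ℂ) * y)) * g y := by
    obtain ⟨C₂, hC₂, hC₂'⟩ := stretched (α := 1) one_pos (a := x - x₀) (by linarith)
    have hcc : Continuous fun y : ℝ => exp (-((x : ℂ) * y)) * g y :=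
      Continuous.mul (by fun_prop) hgc
    refine Integrable.mono' (((decay_int (p := 2) (by norm_num)).const_mul C₂).const_mul K)
      hcc.aestronglyMeasurable (ae_of_all _ fun y => ?_)
    rcases lt_or_ge y 0 with hy | hy
    · rw [hneg y hy, mul_zero, norm_zero]
      positivity
    · rw [norm_mul, Complex.norm_exp]
      have e1 : (-((x : ℂ) * y)).re = -(x * y) := by simp
      have e2 := hnorm y x₀ le_rfl
      have e3 := hC₂' y hy
      rw [Real.rpow_one] at e3
      rw [e1, abs_of_nonneg hy]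
      calc Real.exp (-(x * y)) * ‖g y‖ ≤ Real.exp (-(x * y)) * (K * Real.exp (x₀ * y)) := by gcongr
        _ = K * Real.exp (-((x - x₀) * y)) := by
          rw [mul_left_comm, ← Real.exp_add]
          congr 2
          ring
        _ ≤ _ := mul_le_mul_of_nonneg_left e3 hK0
  exact inversion (H := h) (c := x) (g := g)
    (line_cont fun s hs => (hdf s (by rw [hs]; exact hx.le)).continuousAt)
    (hli x hx.le) (fun y => hind y x hx.le) hgi s

/-- **small means imply zero-free regions** -/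
theorem down (D : Dat lam c δ σ) (H : Cont lam c σ 0 Ψ Kf) (h0 : 0 < α) (h1 : α < 1)
    {a C y₀ : ℝ} (ha : 0 ≤ a) (hM : ∀ y, y₀ ≤ y → |M lam c α y| ≤ C * Real.exp (a * y)) {v₀ : ℂ}
    (hv₀ : a < v₀.re) : Ψ (v₀ ^ (α : ℂ)) ≠ 0 := by
  obtain ⟨x₀, hx1, hx₀⟩ := exists_abscissa h0 h1 σ
  obtain ⟨g, K, hK, hgc, hneg, hgpos, hgb, hinv⟩ := lines D h0 h1 hx1 hx₀
  set x₁ : ℝ := max x₀ a with hx₁
  have hx01 : x₀ ≤ x₁ := le_max_left _ _
  have hax1 : a ≤ x₁ := le_max_right _ _
  set U : Set ℂ := {v | a < v.re} with hU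
  have hUo : IsOpen U := isOpen_lt continuous_const Complex.continuous_re
  have hUc : Convex ℝ U := convex_halfSpace_re_gt a
  set W : Set ℂ := {v | x₁ < v.re} with hW
  have hWo : IsOpen W := isOpen_lt continuous_const Complex.continuous_re
  have hWc : Convex ℝ W := convex_halfSpace_re_gt x₁
  have hWU : W ⊆ U := fun v hv => lt_of_le_of_lt hax1 hv
  have hUpos : ∀ v ∈ U, 0 < v.re := fun v hv => lt_of_le_of_lt ha hv
  -- the Laplace transform
  set G : ℂ → ℂ := fun v => ∫ y in Ioi (0 : ℝ), exp (-(v * y)) * g y with hG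
  have hGW : ∀ v ∈ W, G v = hh (f₀ lam c α) (f₁ lam c α) v := by
    intro v hv
    have e1 := hinv v.re (lt_of_le_of_lt hx01 hv) v.im
    rw [Complex.re_add_im] at e1
    rw [← e1, hG]
    simp only
    rw [← integral_indicator measurableSet_Ioi]
    refine integral_congr_ae ?_
    have e2 : ∀ᵐ y : ℝ, y ≠ 0 := by
      rw [ae_iff]
      simp
    filter_upwards [e2] with y hy
    by_cases hy2 : y ∈ Ioi (0 : ℝ)
    · rw [indicator_of_mem hy2]
    · rw [indicator_of_notMem hy2]
      have : y < 0 := lt_of_le_of_ne (not_lt.1 hy2) hy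
      rw [hneg y this, mul_zero]
  have hGd : DifferentiableOn ℂ G U := by
    intro t ht
    have ht' : a < t.re := ht
    set ε : ℝ := (t.re - a) / 3 with hε
    have hε0 : 0 < ε := by rw [hε]; linarith
    set O : Set ℂ := {v | a + 2 * ε < v.re} with hO
    have hOo : IsOpen O := isOpen_lt continuous_const Complex.continuous_re
    -- a bound
    set C' : ℝ := K * Real.exp (x₀ * |y₀|) + |C| / ε with hC'
    have hC'0 : 0 ≤ C' := by positivity
    have hbd : ∀ y, 0 < y → ‖g y‖ ≤ C' * Real.exp ((a + ε) * y) := by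
      intro y hy
      have e0 : 1 ≤ Real.exp ((a + ε) * y) := Real.one_le_exp (by positivity)
      rcases le_total y₀ y with h | h
      · rw [hgpos y hy, Complex.norm_real, Real.norm_eq_abs, abs_mul, abs_of_pos hy]
        have e1 := hM y h
        have e2 : y ≤ Real.exp (ε * y) / ε := by
          rw [le_div_iff₀ hε0]
          have := Real.add_one_le_exp (ε * y)
          linarith
        have e3 : C * Real.exp (a * y) ≤ |C| * Real.exp (a * y) :=
          mul_le_mul_of_nonneg_right (le_abs_self C) (Real.exp_pos _).le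
        calc y * |M lam c α y| ≤ (Real.exp (ε * y) / ε) * (|C| * Real.exp (a * y)) :=
              mul_le_mul e2 (e1.trans e3) (abs_nonneg _) (by positivity)
          _ = |C| / ε * (Real.exp (a * y) * Real.exp (ε * y)) := by ring
          _ = |C| / ε * Real.exp ((a + ε) * y) := by
            rw [← Real.exp_add]
            congr 2
            ring
          _ ≤ C' * Real.exp ((a + ε) * y) := by
            refine mul_le_mul_of_nonneg_right ?_ (Real.exp_pos _).le
            rw [hC']
            have : 0 ≤ K * Real.exp (x₀ * |y₀|) := by positivity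
            linarith
      · have e1 := hgb y
        have e2 : Real.exp (x₀ * y) ≤ Real.exp (x₀ * |y₀|) := by
          apply Real.exp_le_exp.2
          exact mul_le_mul_of_nonneg_left (h.trans (le_abs_self y₀)) (by linarith)
        calc ‖g y‖ ≤ K * Real.exp (x₀ * |y₀|) := e1.trans (mul_le_mul_of_nonneg_left e2 hK)
          _ ≤ C' := by
            rw [hC']
            have : 0 ≤ |C| / ε := by positivity
            linarith
          _ ≤ _ := le_mul_of_one_le_right hC'0 e0
    have hexp : Integrable (fun T : ℝ => C' * Real.exp (-(ε * T))) (volume.restrict (Ioi 0)) := by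
      have := integrableOn_exp_mul_Ioi (a := -ε) (by linarith) 0
      refine Integrable.const_mul ?_ _
      refine this.congr_fun (fun T _ => ?_) measurableSet_Ioi
      simp only
      congr 1
      ring
    have h2 := Pool.Agent.HP.differentiableOn_integral (volume.restrict (Ioi (0 : ℝ)))
      (fun (y : ℝ) (v : ℂ) => if 0 < y then exp (-(v * y)) * g y else 0) O hOo
      (fun v _ => ?_) (fun y => ?_) (fun y => if 0 < y then C' * Real.exp (-(ε * y)) else 0) ?_
      (fun y v hv => ?_)
    · have h3 : (fun v : ℂ => ∫ y in Ioi (0 : ℝ),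
          (if 0 < y then exp (-(v * y)) * g y else 0)) = G := by
        funext v
        rw [hG]
        refine setIntegral_congr_fun measurableSet_Ioi fun y hy => ?_
        rw [if_pos (show 0 < y from hy)]
      rw [h3] at h2
      exact (h2.differentiableAt (hOo.mem_nhds
        (show a + 2 * ε < t.re by rw [hε]; linarith))).differentiableWithinAt
    · have h3 : AEStronglyMeasurable (fun y : ℝ => exp (-(v * y)) * g y)
          (volume.restrict (Ioi 0)) := Continuous.aestronglyMeasurable (by fun_prop)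
      refine h3.congr ?_
      filter_upwards [ae_restrict_mem measurableSet_Ioi] with y hy
      rw [if_pos (show 0 < y from hy)]
    · by_cases hy : 0 < y
      · simp only [hy, if_true]
        exact Differentiable.differentiableOn (by fun_prop)
      · simp only [hy, if_false]
        exact differentiableOn_const _
    · refine hexp.congr ?_
      filter_upwards [ae_restrict_mem measurableSet_Ioi] with y hy
      rw [if_pos (show 0 < y from hy)]
    · split_ifs with hy
      · have hv' : a + 2 * ε < v.re := hv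
        rw [norm_mul, Complex.norm_exp]
        have e1 : (-(v * (y : ℂ))).re = -(v.re * y) := by
          rw [Complex.neg_re, Complex.re_mul_ofReal]
        rw [e1]
        calc Real.exp (-(v.re * y)) * ‖g y‖ ≤
              Real.exp (-((a + 2 * ε) * y)) * (C' * Real.exp ((a + ε) * y)) := by
              refine mul_le_mul (Real.exp_le_exp.2 ?_) (hbd y hy) (norm_nonneg _) (Real.exp_pos _).le
              nlinarith
          _ = C' * (Real.exp (-((a + 2 * ε) * y)) * Real.exp ((a + ε) * y)) := by ring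
          _ = _ := by
            rw [← Real.exp_add]
            congr 2
            ring
      · simp
  -- a primitive
  obtain ⟨GG, hGG⟩ := convex_primitive hUo hUc hGd
  have hWx : ∀ v ∈ W, 0 < v.re ∧ σ + 1 ≤ kap α * ‖v‖ ^ α ∧ σ < (v ^ (α : ℂ)).re := by
    intro v hv
    have e1 : 0 < v.re := hUpos v (hWU hv)
    have e2 : x₀ ≤ ‖v‖ := (hx01.trans (le_of_lt hv)).trans (re_le_norm v)
    have e3 := hx₀ v e1 e2
    have e4 := re_pow_ge h0 h1 e1
    exact ⟨e1, e3, by linarith⟩
  set w₀ : ℂ := ((x₁ + 1 : ℝ) : ℂ) with hw₀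
  have hw₀W : w₀ ∈ W := by
    change x₁ < w₀.re
    rw [hw₀, Complex.ofReal_re]
    linarith
  set k : ℂ := f₀ lam c α w₀ / w₀ + GG w₀ with hk
  have hconst : ∀ v ∈ W, f₀ lam c α v / v + GG v = k := by
    have hd : ∀ v ∈ W, HasDerivAt (fun v => f₀ lam c α v / v + GG v) 0 v := by
      intro v hv
      obtain ⟨e1, e2, e3⟩ := hWx v hv
      have e4 := (f₀_deriv D e1 e3).div (hasDerivAt_id v) (ne_zero' e1)
      refine (e4.add (hGG v (hWU hv))).congr_deriv ?_
      rw [hGW v hv]
      have := ne_zero' e1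
      simp only [hh, id]
      field_simp
      ring
    intro v hv
    refine hWc.is_const_of_fderivWithin_eq_zero (𝕜 := ℂ)
      (fun z hz => (hd z hz).differentiableAt.differentiableWithinAt) (fun z hz => ?_) hv hw₀W
    rw [fderivWithin_of_isOpen hWo hz]
    ext
    simp [(hd z hz).deriv]
  -- the continuation of `f₀`
  set fh : ℂ → ℂ := fun v => v * (k - GG v) with hfh
  set fh' : ℂ → ℂ := fun v => (k - GG v) - v * G v with hfh'
  have hfhd : ∀ v ∈ U, HasDerivAt fh (fh' v) v := by
    intro v hv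
    have e1 : HasDerivAt (fun v => k - GG v) (-G v) v := (hGG v hv).const_sub k
    refine ((hasDerivAt_id v).mul e1).congr_deriv ?_
    rw [hfh']
    simp only [id]
    ring
  have hfW : ∀ v ∈ W, fh v = f₀ lam c α v := by
    intro v hv
    have e1 := ne_zero' (hWx v hv).1
    rw [hfh]
    simp only
    rw [← hconst v hv]
    field_simp
    ring
  have hfW' : ∀ v ∈ W, fh' v = f₁ lam c α v := by
    intro v hv
    obtain ⟨e1, e2, e3⟩ := hWx v hv
    have e4 : fh =ᶠ[𝓝 v] f₀ lam c α := by
      filter_upwards [hWo.mem_nhds hv] with z hz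
      exact hfW z hz
    exact ((hfhd v (hWU hv)).congr_of_eventuallyEq e4.symm).unique (f₀_deriv D e1 e3)
  -- the differential equation
  have hUre : ∀ v ∈ U, 0 < (v ^ (α : ℂ)).re := fun v hv => re_pow_pos h0 h1 (hUpos v hv)
  set A : ℂ → ℂ := fun v => α * v ^ ((α : ℂ) - 1) * Kf (v ^ (α : ℂ)) - fh' v with hA
  have hpd : ∀ v ∈ U, DifferentiableAt ℂ (fun v : ℂ => v ^ (α : ℂ)) v := fun v hv =>
    (pow_deriv (slit (hUpos v hv))).differentiableAt
  have hAd : DifferentiableOn ℂ A U := by
    intro v hv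
    have e1 : DifferentiableAt ℂ (fun v : ℂ => v ^ ((α : ℂ) - 1)) v :=
      differentiableAt_id.cpow_const (slit (hUpos v hv))
    have e2 : DifferentiableAt ℂ (fun v : ℂ => Kf (v ^ (α : ℂ))) v :=
      DifferentiableAt.comp (f := fun v : ℂ => v ^ (α : ℂ)) v (H.Kd _ (hUre v hv)) (hpd v hv)
    have e3 : DifferentiableAt ℂ fh' v := by
      have e4 : DifferentiableAt ℂ G v := (hGd v hv).differentiableAt (hUo.mem_nhds hv)
      exact ((differentiableAt_const k).sub (hGG v hv).differentiableAt).sub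
        (differentiableAt_id.mul e4)
    exact (((e1.const_mul (α : ℂ)).mul e2).sub e3).differentiableWithinAt
  obtain ⟨AA, hAA⟩ := convex_primitive hUo hUc hAd
  set χ : ℂ → ℂ := fun v => Ψ (v ^ (α : ℂ)) * exp (-AA v) with hχ
  have hχd : ∀ v ∈ U, DifferentiableAt ℂ χ v := by
    intro v hv
    have e2 : DifferentiableAt ℂ (fun v : ℂ => Ψ (v ^ (α : ℂ))) v :=
      DifferentiableAt.comp (f := fun v : ℂ => v ^ (α : ℂ)) v (H.Ψd _ (hUre v hv)) (hpd v hv)
    exact e2.mul (hAA v hv).differentiableAt.neg.cexp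
  have hχW : ∀ v ∈ W, HasDerivAt χ 0 v := by
    intro v hv
    obtain ⟨e1, e2, e3⟩ := hWx v hv
    have e4 : HasDerivAt (fun v : ℂ => Ψ (v ^ (α : ℂ)))
        (deriv Ψ (v ^ (α : ℂ)) * (α * v ^ ((α : ℂ) - 1))) v :=
      HasDerivAt.comp (h := fun v : ℂ => v ^ (α : ℂ)) v
        (H.Ψd _ (hUre v (hWU hv))).hasDerivAt (pow_deriv (slit e1))
    have e5 : HasDerivAt (fun v => exp (-AA v)) (exp (-AA v) * (-A v)) v :=
      (hAA v (hWU hv)).neg.cexp
    refine (e4.mul e5).congr_deriv ?_
    have e6 : A v = α * v ^ ((α : ℂ) - 1) * (deriv Ψ (v ^ (α : ℂ)) / Ψ (v ^ (α : ℂ))) := by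
      rw [hA]
      simp only
      rw [hfW' v hv]
      unfold f₁
      rw [H.eq _ e3]
      ring
    have e7 : Ψ (v ^ (α : ℂ)) ≠ 0 := H.ne _ e3
    rw [e6]
    field_simp
    ring
  have hχc : ∀ v ∈ W, χ v = χ w₀ := by
    intro v hv
    refine hWc.is_const_of_fderivWithin_eq_zero (𝕜 := ℂ)
      (fun z hz => (hχW z hz).differentiableAt.differentiableWithinAt) (fun z hz => ?_) hv hw₀W
    rw [fderivWithin_of_isOpen hWo hz]
    ext
    simp [(hχW z hz).deriv]
  have hw0ne : χ w₀ ≠ 0 := by
    rw [hχ]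
    exact mul_ne_zero (H.ne _ (hWx w₀ hw₀W).2.2) (Complex.exp_ne_zero _)
  have a1 : AnalyticOnNhd ℂ χ U :=
    DifferentiableOn.analyticOnNhd (fun v hv => (hχd v hv).differentiableWithinAt) hUo
  have a2 : AnalyticOnNhd ℂ (fun _ : ℂ => χ w₀) U := analyticOnNhd_const
  have a3 := a1.eqOn_of_preconnected_of_eventuallyEq a2 hUc.isPreconnected (hWU hw₀W) (by
    filter_upwards [hWo.mem_nhds hw₀W] with v hv
    exact hχc v hv)
  have a4 := a3 (show v₀ ∈ U from hv₀)
  simp only at a4
  intro h2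
  rw [hχ] at a4
  simp only at a4
  rw [h2, zero_mul] at a4
  exact hw0ne a4.symm

end Pool.Agent.TH942.SL
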