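import Pool.Agent.H21.L.R_seed8.TH942.SL.Tail
import Pool.Agent.H21.L.R_seed8.TH942.SL.Down
import Pool.Agent.H21.L.R_seed8.TH942.LS.Rank

/-!
# Sectorial means for an elliptic curve
-/

set_option autoImplicit false

namespace Pool.Agent.TH942.SL

open MeasureTheory Filter Topology Set Classical
open Pool.Agent.W263.BSD Pool.Agent.W189.ML Pool.Agent.W187.UR
open Pool.Agent.TH942.LS (lm cE dat cont Kf Cont Dat)

section

variable {S : Set ℕ} {A : ℕ → ℝ}

/-- the correction function is bounded in the sector `‖w‖ ≤ K Re w` -/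
theorem GG_sectorK (E : EData S A) {K : ℝ} (hK : 0 < K) :
    ∃ C : ℝ, ∀ w : ℂ, 0 < w.re → ‖w‖ ≤ K * w.re →
    ‖GG S A w‖ ≤ C := by
  obtain ⟨C, σ₀, hσ₀, hC⟩ := log_sum_bound
  set δ := σ₀ / 2 with hδ
  have hδ0 : 0 < δ := by positivity
  set B1 : ℝ := ∑' p : ℕ, 60 * (p : ℝ) ^ (-(3 / 2) : ℝ) with hB1
  set B2 : ℝ := ∑' p : ℕ, (2 * (p : ℝ) ^ (-1 - δ) + 60 * (p : ℝ) ^ (-(3 / 2) : ℝ)) with hB2
  refine ⟨max (K * C + B1) B2, fun w hw hw5 => ?_⟩
  by_cases hc : δ < w.re
  · refine le_max_of_le_right ?_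
    unfold GG
    exact tsum_of_norm_bounded (summable_bound hδ0).hasSum fun p => E.gterm_norm hδ0 p hc
  · refine le_max_of_le_left ?_
    push Not at hc
    obtain ⟨hs, hle⟩ := hC w.re hw (by linarith)
    set f : ℕ → ℝ := fun p => ‖w‖ * (Real.log p * (p : ℝ) ^ (-(1 + w.re))) with hf
    have hs' : Summable (fun p : Nat.Primes => f p) := hs.mul_left ‖w‖
    have hf1 : Summable (({p : ℕ | p.Prime}).indicator f) :=
      (summable_subtype_iff_indicator (f := f) (s := {p : ℕ | p.Prime})).mp hs'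
    have hf2 : ∑' p, ({p : ℕ | p.Prime}).indicator f p =
        ‖w‖ * ∑' p : Nat.Primes, Real.log p * (p : ℝ) ^ (-(1 + w.re)) := by
      rw [← tsum_mul_left]
      exact (tsum_subtype {p : ℕ | p.Prime} f).symm
    have hg1 : Summable fun p : ℕ => 60 * (p : ℝ) ^ (-(3 / 2) : ℝ) :=
      (Real.summable_nat_rpow.mpr (by norm_num)).mul_left _
    have hb : ∀ p, ‖gterm S A p w‖ ≤ ({p : ℕ | p.Prime}).indicator f p +
        60 * (p : ℝ) ^ (-(3 / 2) : ℝ) := by
      intro p
      by_cases hp : p ∈ S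
      · have h25 := E.big p hp
        have hp1 : (1 : ℝ) ≤ p := by exact_mod_cast (show 1 ≤ p by omega)
        have hp0 : (0 : ℝ) < p := by linarith
        rw [indicator_of_mem (show p ∈ {p : ℕ | p.Prime} from E.prime p hp)]
        have h4 := E.gterm_main hp (w := w) hw.le
        rw [dl_cube (by omega)] at h4
        have hlog : 0 ≤ Real.log p := Real.log_nonneg hp1
        have h5 : ‖(mm A p * (xp p w - xp p w ^ 2) : ℂ)‖ ≤ f p := by
          have e1 : ‖1 - xp p w‖ ≤ ‖w‖ * Real.log p := by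
            rw [xp_eq (by omega), norm_sub_rev]
            refine (norm_exp_sub_one_le_of_re ?_).trans (le_of_eq ?_)
            · have : (-(w * Real.log p)).re = -(w.re * Real.log p) := by
                rw [Complex.neg_re, Complex.re_mul_ofReal]
              rw [this]
              have := mul_nonneg hw.le hlog
              linarith
            · rw [norm_neg, norm_mul, Complex.norm_real, Real.norm_eq_abs, abs_of_nonneg hlog]
          have e2 : (mm A p * (xp p w - xp p w ^ 2) : ℂ) = mm A p * (xp p w * (1 - xp p w)) := by ring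
          rw [e2, norm_mul, norm_mul, Complex.norm_real, Real.norm_eq_abs, norm_xp (by omega)]
          have e3 : (p : ℝ) ^ (-(1 + w.re)) = 1 / p * (p : ℝ) ^ (-w.re) := by
            rw [show (-(1 + w.re) : ℝ) = -1 + -w.re by ring, Real.rpow_add hp0, Real.rpow_neg_one,
              one_div]
          rw [hf]
          simp only
          rw [e3]
          calc |mm A p| * ((p : ℝ) ^ (-w.re) * ‖1 - xp p w‖) ≤
              (1 / p) * ((p : ℝ) ^ (-w.re) * (‖w‖ * Real.log p)) := by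
                have := E.mm_le hp
                gcongr
            _ = _ := by ring
        have h8 : ‖gterm S A p w‖ ≤ ‖gterm S A p w - mm A p * (xp p w - xp p w ^ 2)‖ +
            ‖(mm A p * (xp p w - xp p w ^ 2) : ℂ)‖ := by
          have := norm_add_le (gterm S A p w - mm A p * (xp p w - xp p w ^ 2))
            (mm A p * (xp p w - xp p w ^ 2))
          rwa [sub_add_cancel] at this
        linarith
      · unfold gterm
        rw [if_neg hp, norm_zero]
        refine add_nonneg ?_ (by positivity)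
        refine indicator_nonneg (fun q hq => ?_) p
        have hq' : q.Prime := hq
        have hq1 : (1 : ℝ) ≤ q := by exact_mod_cast hq'.one_le
        have := Real.log_nonneg hq1
        rw [hf]
        positivity
    have h9 : ‖GG S A w‖ ≤ ∑' p, (({p : ℕ | p.Prime}).indicator f p +
        60 * (p : ℝ) ^ (-(3 / 2) : ℝ)) := by
      unfold GG
      exact tsum_of_norm_bounded (hf1.add hg1).hasSum hb
    rw [hf1.tsum_add hg1, hf2] at h9
    have h10 : ‖w‖ * ∑' p : Nat.Primes, Real.log p * (p : ℝ) ^ (-(1 + w.re)) ≤ K * C := by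
      have h11 : 0 ≤ ∑' p : Nat.Primes, Real.log p * (p : ℝ) ^ (-(1 + w.re)) := by
        refine tsum_nonneg fun p => ?_
        have hp1 : (1 : ℝ) ≤ p := by exact_mod_cast p.2.one_le
        have := Real.log_nonneg hp1
        positivity
      calc _ ≤ (K * w.re) * ∑' p : Nat.Primes, Real.log p * (p : ℝ) ^ (-(1 + w.re)) := by gcongr
        _ = K * (w.re * ∑' p : Nat.Primes, Real.log p * (p : ℝ) ^ (-(1 + w.re))) := by ring
        _ ≤ K * C := mul_le_mul_of_nonneg_left hle hK.le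
    linarith


end

/-- the local factors do not vanish -/
lemma quad_ne {t : ℝ} (ht : |t| ≤ 1) {z : ℂ} (hz : ‖z‖ < 1) : 1 - 2 * t * z + z ^ 2 ≠ 0 := by
  intro h
  have h1 := congrArg Complex.re h
  have h2 := congrArg Complex.im h
  simp only [Complex.add_re, Complex.sub_re, Complex.one_re, Complex.mul_re, Complex.re_ofNat,
    Complex.ofReal_re, Complex.im_ofNat, Complex.ofReal_im, Complex.mul_im, sq, Complex.zero_re,
    Complex.add_im, Complex.sub_im, Complex.one_im, Complex.zero_im] at h1 h2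
  have h3 : ‖z‖ ^ 2 < 1 := by
    have := norm_nonneg z
    nlinarith
  rw [← Complex.normSq_eq_norm_sq, Complex.normSq_apply] at h3
  have h4 := abs_le.1 ht
  have h5 : z.im * (z.re - t) = 0 := by nlinarith
  rcases mul_eq_zero.1 h5 with h6 | h6
  · rw [h6] at h1 h3
    have h7 : (z.re - t) ^ 2 + (1 - t ^ 2) = 0 := by nlinarith
    have h8 : 0 ≤ 1 - t ^ 2 := by nlinarith
    have h9 : z.re - t = 0 := by nlinarith [sq_nonneg (z.re - t)]
    have h10 : t ^ 2 = 1 := by nlinarith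
    have h11 : z.re = t := by linarith
    rw [h11] at h3
    nlinarith
  · have h7 : z.re = t := by linarith
    rw [h7] at h1 h3
    nlinarith

lemma card3 (A B : ZMod 3) :
    (Finset.univ.filter fun q : ZMod 3 × ZMod 3 => q.2 ^ 2 = q.1 ^ 3 + A * q.1 + B).card ≤ 6 := by
  revert A B
  decide

variable {a b : ℤ} {F : ℂ → ℂ}

lemma pointCount3 : pointCount a b 3 ≤ 6 := by
  unfold pointCount
  have h := card3 (a : ZMod 3) (b : ZMod 3)
  rw [Nat.card_eq_fintype_card, Fintype.card_subtype]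
  exact h

/-- Hasse's inequality for all good primes -/
theorem hasse_all {p : ℕ} (h : GoodPrime a b p) : |(p : ℝ) - pointCount a b p| ≤ 2 * √p := by
  by_cases h5 : 5 ≤ p
  · exact hasse h h5
  · have h2 := h.1.two_le
    have hp : p = 2 ∨ p = 3 ∨ p = 4 := by omega
    rcases hp with rfl | rfl | rfl
    · exact absurd (Dvd.intro _ rfl) h.2
    · have h3 : (pointCount a b 3 : ℝ) ≤ 6 := by exact_mod_cast pointCount3
      have h4 : (0 : ℝ) ≤ pointCount a b 3 := by positivity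
      have h5 : (3 / 2 : ℝ) ≤ √(3 : ℝ) := by
        apply Real.le_sqrt_of_sq_le
        norm_num
      rw [abs_le]
      constructor <;> push_cast <;> linarith
    · exact absurd h.1 (by norm_num)

lemma ef_ne {p : ℕ} (h : GoodPrime a b p) {s : ℂ} (hs : 0 < s.re) : ef a b p s ≠ 0 := by
  have hp0 : (0 : ℝ) < p := by exact_mod_cast h.1.pos
  have hp1 : (1 : ℝ) < p := by exact_mod_cast h.1.one_lt
  have hq : 0 < √(p : ℝ) := Real.sqrt_pos.2 hp0
  have hqq : √(p : ℝ) ^ 2 = p := Real.sq_sqrt hp0.le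
  have hqc : ((√(p : ℝ) : ℝ) : ℂ) ≠ 0 := by exact_mod_cast hq.ne'
  rw [ef_eq h.1.one_le]
  have hx : ‖xp p s‖ < 1 := by
    rw [norm_xp h.1.one_le]
    exact Real.rpow_lt_one_of_one_lt_of_neg hp1 (by linarith)
  have ht : |(Ap a b p) / (2 * √(p : ℝ))| ≤ 1 := by
    rw [abs_div, abs_of_pos (by positivity : 0 < 2 * √(p : ℝ)), div_le_one (by positivity)]
    exact hasse_all h
  have hz : ‖xp p s / (√(p : ℝ) : ℝ)‖ < 1 := by
    rw [norm_div, Complex.norm_real, Real.norm_eq_abs, abs_of_pos hq, div_lt_one hq]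
    have : 1 ≤ √(p : ℝ) := Real.one_le_sqrt.2 hp1.le
    linarith
  have h3 := quad_ne ht hz
  have h4 : fac (Ap a b) p (xp p s) = 1 - 2 * ((Ap a b p / (2 * √(p : ℝ)) : ℝ) : ℂ) *
      (xp p s / (√(p : ℝ) : ℝ)) + (xp p s / (√(p : ℝ) : ℝ)) ^ 2 := by
    unfold fac tt dl
    have hpc : (p : ℂ) = ((√(p : ℝ) : ℝ) : ℂ) ^ 2 := by
      rw [← Complex.ofReal_pow, hqq]
      rfl
    push_cast
    rw [hpc]
    field_simp
  rw [h4]
  exact h3

theorem small_ne {s : ℂ} (hs : 0 < s.re) : small a b s ≠ 0 := by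
  unfold small
  rw [Finset.prod_ne_zero_iff]
  intro p _
  split_ifs with h
  · exact ef_ne h hs
  · exact one_ne_zero

/-- the logarithmic derivative near a zero -/
theorem log_deriv_zero {Φ : ℂ → ℂ} {m : ℕ} (h : OrdZero Φ m) :
    ∃ r C : ℝ, 0 < r ∧ ∀ s : ℂ, s ≠ 0 → ‖s‖ ≤ r → ‖deriv Φ s / Φ s - m / s‖ ≤ C := by
  obtain ⟨g, hg, hg0, heq⟩ := h
  have hgc : ContinuousAt (fun v => deriv g v / g v) 0 :=
    hg.deriv.continuousAt.div hg.continuousAt hg0
  have hgb : ∀ᶠ v in 𝓝 (0 : ℂ), ‖deriv g v / g v‖ ≤ ‖deriv g 0 / g 0‖ + 1 := by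
    have := hgc.norm.eventually (gt_mem_nhds (lt_add_one _))
    exact this.mono fun v hv => hv.le
  have hgn : ∀ᶠ v in 𝓝 (0 : ℂ), g v ≠ 0 := hg.continuousAt.eventually_ne hg0
  have hga : ∀ᶠ v in 𝓝 (0 : ℂ), AnalyticAt ℂ g v := hg.eventually_analyticAt
  have hall : ∀ᶠ s in 𝓝 (0 : ℂ), s ≠ 0 →
      ‖deriv Φ s / Φ s - m / s‖ ≤ ‖deriv g 0 / g 0‖ + 1 := by
    filter_upwards [heq.eventually_nhds, hgb, hgn, hga] with s h1 h2 h3 h4 hs
    have h8 : Φ s = s ^ m * g s := h1.self_of_nhds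
    have h9 : deriv Φ s = (m * s ^ (m - 1) * 1) * g s + s ^ m * deriv g s := by
      have e1 : Φ =ᶠ[𝓝 s] fun z => z ^ m * g z := h1
      rw [e1.deriv_eq]
      exact (((hasDerivAt_id s).pow m).mul h4.differentiableAt.hasDerivAt).deriv
    have e1 : deriv Φ s / Φ s - m / s = deriv g s / g s := by
      rw [h9, h8]
      rcases Nat.eq_zero_or_pos m with hn | hn
      · rw [hn]
        simp
      · obtain ⟨k, hk⟩ : ∃ k, m = k + 1 := ⟨m - 1, by omega⟩
        rw [hk]
        simp only [Nat.add_sub_cancel]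
        push_cast
        field_simp
        ring
    rw [e1]
    exact h2
  obtain ⟨r, hr, hball⟩ := Metric.eventually_nhds_iff_ball.1 hall
  refine ⟨r / 2, ‖deriv g 0 / g 0‖ + 1, by positivity, fun s hs hsr => ?_⟩
  refine hball s ?_ hs
  rw [Metric.mem_ball, dist_zero_right]
  linarith

/-- the primitive of `Kf` -/
noncomputable def GK (a b : ℤ) (s : ℂ) : ℂ := GG (SS a b) (Ap a b) s +
  ∑ p ∈ Finset.range 25, (cE a b p : ℂ) * Complex.exp (-(s * lm p))

lemma lm_nonneg (p : ℕ) : 0 ≤ lm p := by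
  have : Real.log 2 ≤ lm p := le_max_right _ _
  have := Real.log_pos (by norm_num : (1 : ℝ) < 2)
  linarith

lemma GK_deriv {s : ℂ} (hs : 0 < s.re) : HasDerivAt (GK a b) (Kf a b s) s := by
  have E := eData a b
  have h1 := (E.GG_differentiable hs).hasDerivAt
  have h2 : ∀ p ∈ Finset.range 25, HasDerivAt (fun x : ℂ => (cE a b p : ℂ) *
      Complex.exp (-(x * lm p)))
      (-(((cE a b p * lm p : ℝ) : ℂ) * Complex.exp (-(s * lm p)))) s := by
    intro p _
    have h6 := (((hasDerivAt_id s).mul_const (lm p : ℂ)).neg.cexp).const_mul (cE a b p : ℂ)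
    refine h6.congr_deriv ?_
    simp only [Pi.neg_apply, id]
    push_cast
    ring
  have h3 := HasDerivAt.fun_sum h2
  refine (h1.add h3).congr_deriv ?_
  unfold Kf
  rw [Finset.sum_neg_distrib]
  ring

lemma exp_le_one' {s : ℂ} (hs : 0 < s.re) (p : ℕ) : ‖Complex.exp (-(s * lm p))‖ ≤ 1 := by
  rw [Complex.norm_exp]
  apply Real.exp_le_one_iff.2
  rw [Complex.neg_re, Complex.re_mul_ofReal]
  have := mul_nonneg hs.le (lm_nonneg p)
  linarith

/-- bounds on sectors -/
theorem sector_bounds (a b : ℤ) {κ : ℝ} (hκ : 0 < κ) (hκ1 : κ ≤ 1) :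
    ∃ C : ℝ, (∀ s : ℂ, 0 < s.re → κ * ‖s‖ ≤ s.re → ‖s‖ ≤ 1 → ‖GK a b s‖ ≤ C) ∧
      ∀ s : ℂ, 0 < s.re → κ * ‖s‖ ≤ s.re → ‖s‖ ≤ 1 → ‖Kf a b s‖ ≤ C / ‖s‖ := by
  have E := eData a b
  obtain ⟨CG, hCG⟩ := GG_sectorK E (K := 3 / κ) (by positivity)
  set S1 : ℝ := ∑ p ∈ Finset.range 25, |cE a b p| with hS1
  set S3 : ℝ := ∑ p ∈ Finset.range 25, |cE a b p| * lm p with hS3
  have hS10 : 0 ≤ S1 := Finset.sum_nonneg fun p _ => abs_nonneg _
  have hS30 : 0 ≤ S3 := Finset.sum_nonneg fun p _ => mul_nonneg (abs_nonneg _) (lm_nonneg p)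
  have hC2 : 0 ≤ 2 / κ * |CG| := by positivity
  refine ⟨|CG| + S1 + 2 / κ * |CG| + S3, fun s hs hs2 hs3 => ?_, fun s hs hs2 hs3 => ?_⟩
  · unfold GK
    have h1 : ‖GG (SS a b) (Ap a b) s‖ ≤ |CG| := by
      refine (hCG s hs ?_).trans (le_abs_self _)
      rw [div_mul_eq_mul_div, le_div_iff₀ hκ, mul_comm]
      linarith
    have h2 : ‖∑ p ∈ Finset.range 25, (cE a b p : ℂ) * Complex.exp (-(s * lm p))‖ ≤ S1 := by
      refine (norm_sum_le _ _).trans (Finset.sum_le_sum fun p _ => ?_)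
      rw [norm_mul, Complex.norm_real, Real.norm_eq_abs]
      calc |cE a b p| * ‖Complex.exp (-(s * lm p))‖ ≤ |cE a b p| * 1 :=
            mul_le_mul_of_nonneg_left (exp_le_one' hs p) (abs_nonneg _)
        _ = _ := mul_one _
    have := norm_add_le (GG (SS a b) (Ap a b) s)
      (∑ p ∈ Finset.range 25, (cE a b p : ℂ) * Complex.exp (-(s * lm p)))
    linarith
  · have hn : 0 < ‖s‖ := hs.trans_le (Complex.re_le_norm s)
    have e2 : ‖deriv (GG (SS a b) (Ap a b)) s‖ ≤ |CG| / (κ * ‖s‖ / 2) := by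
      have hball : ∀ z : ℂ, z ∈ Metric.closedBall s (κ * ‖s‖ / 2) →
          0 < z.re ∧ ‖z‖ ≤ 3 / κ * z.re := by
        intro z hz
        rw [Metric.mem_closedBall, Complex.dist_eq] at hz
        have h4 := (abs_le.1 ((Complex.abs_re_le_norm _).trans hz)).1
        rw [Complex.sub_re] at h4
        have h5 : ‖z‖ ≤ κ * ‖s‖ / 2 + ‖s‖ := by
          have := norm_add_le (z - s) s
          rw [sub_add_cancel] at this
          linarith
        have h6 : κ * ‖s‖ / 2 ≤ z.re := by linarith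
        have h7 : 0 < κ * ‖s‖ := by positivity
        refine ⟨by linarith, ?_⟩
        have h8 : ‖z‖ ≤ 3 / 2 * ‖s‖ := by nlinarith
        calc ‖z‖ ≤ 3 / 2 * ‖s‖ := h8
          _ = 3 / κ * (κ * ‖s‖ / 2) := by field_simp
          _ ≤ _ := by gcongr
      refine Complex.norm_deriv_le_of_forall_mem_sphere_norm_le (by positivity) ?_ fun z hz => ?_
      · refine DifferentiableOn.diffContOnCl fun z hz => ?_
        rw [closure_ball _ (by positivity)] at hz
        exact (E.GG_differentiable (hball z hz).1).differentiableWithinAt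
      · obtain ⟨h4, h5⟩ := hball z (Metric.sphere_subset_closedBall hz)
        exact (hCG z h4 h5).trans (le_abs_self _)
    have e3 : ‖∑ p ∈ Finset.range 25, ((cE a b p * lm p : ℝ) : ℂ) *
        Complex.exp (-(s * lm p))‖ ≤ S3 := by
      refine (norm_sum_le _ _).trans (Finset.sum_le_sum fun p _ => ?_)
      rw [norm_mul, Complex.norm_real, Real.norm_eq_abs, abs_mul, abs_of_nonneg (lm_nonneg p)]
      calc |cE a b p| * lm p * ‖Complex.exp (-(s * lm p))‖ ≤ |cE a b p| * lm p * 1 :=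
            mul_le_mul_of_nonneg_left (exp_le_one' hs p)
              (mul_nonneg (abs_nonneg _) (lm_nonneg p))
        _ = _ := mul_one _
    unfold Kf
    have e4 : |CG| / (κ * ‖s‖ / 2) = 2 / κ * |CG| / ‖s‖ := by field_simp
    have e5 : S3 ≤ S3 / ‖s‖ := by
      rw [le_div_iff₀ hn]
      nlinarith
    have e6 := norm_sub_le (deriv (GG (SS a b) (Ap a b)) s)
      (∑ p ∈ Finset.range 25, ((cE a b p * lm p : ℝ) : ℂ) * Complex.exp (-(s * lm p)))
    have e7 : 2 / κ * |CG| / ‖s‖ + S3 / ‖s‖ ≤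
        (|CG| + S1 + 2 / κ * |CG| + S3) / ‖s‖ := by
      rw [← add_div]
      refine div_le_div_of_nonneg_right ?_ hn.le
      have := abs_nonneg CG
      linarith
    rw [e4] at e2
    linarith

/-- **Zero-free sectors imply the asymptotic formula.** -/
theorem curve_up (hF : IsLSeries a b F) {ρ : ℝ} (hρ : 1 < ρ) {m : ℕ}
    (hm : analyticOrderAt F 1 = m)
    (hz : ∀ s : ℂ, s ≠ 1 → |(s - 1).arg| < Real.pi / (2 * ρ) → F s ≠ 0) :
    ∃ C : ℝ, ∀ y : ℝ, 1 ≤ y → |M lm (cE a b) ρ⁻¹ y - m * ρ⁻¹ * Real.log y| ≤ C := by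
  have h0 : 0 < ρ⁻¹ := by positivity
  have h1 : ρ⁻¹ < 1 := inv_lt_one_of_one_lt₀ hρ
  have hk := kap_pos h0 h1
  obtain ⟨C₁, hG, hK⟩ := sector_bounds a b hk (kap_le_one _)
  obtain ⟨r, C₂, hr, hΨ⟩ := log_deriv_zero (ordZero hF hm)
  have hmin : 0 < min r 1 := lt_min hr one_pos
  refine up (dat a b) (cont hF le_rfl) h0 h1 (fun v hv => ?_) (m := m) (r := min r 1)
    (C := max C₁ C₂) hmin (G := GK a b) (fun s hs => GK_deriv hs)
    (fun s hs hs2 hs3 => (hG s hs hs2 (hs3.trans (min_le_right _ _))).trans (le_max_left _ _))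
    (fun s hs hs2 hs3 => (hK s hs hs2 (hs3.trans (min_le_right _ _))).trans ?_)
    (fun s hs _ hs3 => ?_)
  · have hre := re_pow_pos h0 h1 hv
    unfold PhiF
    refine mul_ne_zero (hz _ ?_ ?_) (small_ne hre)
    · intro h
      have : v ^ ((ρ⁻¹ : ℝ) : ℂ) = 0 := by linear_combination h
      exact ne_zero' hre this
    · rw [add_sub_cancel_left]
      have := arg_pow h0 h1 hv
      refine this.trans_le (le_of_eq ?_)
      field_simp
  · exact div_le_div_of_nonneg_right (le_max_left _ _) (norm_nonneg _)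
  · have := hΨ s (ne_zero' hs) (hs3.trans (min_le_left _ _))
    exact (by simpa using this : ‖_‖ ≤ C₂).trans (le_max_right _ _)

/-- **Zeros in the sector force large means.** -/
theorem curve_down (hF : IsLSeries a b F) {ρ : ℝ} (hρ : 1 < ρ) {s : ℂ} (hs1 : s ≠ 1)
    (hs : |(s - 1).arg| < Real.pi / (2 * ρ)) (h0 : F s = 0) {β C y₀ : ℝ} (hβ0 : 0 ≤ β)
    (hβ : β < ((s - 1) ^ (ρ : ℂ)).re)
    (hM : ∀ y, y₀ ≤ y → |M lm (cE a b) ρ⁻¹ y| ≤ C * Real.exp (β * y)) : False := by
  have h0' : 0 < ρ⁻¹ := by positivity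
  have h1 : ρ⁻¹ < 1 := inv_lt_one_of_one_lt₀ hρ
  obtain ⟨h2, h3⟩ := exists_root hρ (sub_ne_zero.2 hs1) hs
  refine down (dat a b) (cont hF le_rfl) h0' h1 hβ0 hM hβ ?_
  rw [h3]
  unfold PhiF
  rw [add_sub_cancel, h0, zero_mul]

end Pool.Agent.TH942.SL
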