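import Pool.Agent.H21.L.R_seed8.TH942.SL.Down
import Pool.Agent.H21.L.R_seed8.TH942.SL.Loc

/-!
# Small means give the analytic continuation
-/

set_option autoImplicit false

open MeasureTheory Filter Topology Set Complex
open Pool.Agent.TH942.LS (Dat P P_le Cont)

namespace Pool.Agent.TH942.SL

variable {α : ℝ} {lam c : ℕ → ℝ} {δ σ : ℝ}

/-- **the continuation in the variable `v`** -/
theorem ext (D : Dat lam c δ σ) (h0 : 0 < α) (h1 : α < 1)
    (hM : ∀ ε : ℝ, 0 < ε → ∃ C y₀ : ℝ, ∀ y, y₀ ≤ y → |M lam c α y| ≤ C * Real.exp (ε * y)) :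
    ∃ (g : ℝ → ℂ) (fh : ℂ → ℂ) (x₁ : ℝ), Continuous g ∧
      (∀ y, 0 < y → g y = ((y * M lam c α y : ℝ) : ℂ)) ∧
      (∀ v : ℂ, 0 < v.re →
        HasDerivAt (fun v => fh v / v) (-∫ y in Ioi (0 : ℝ), exp (-(v * y)) * g y) v) ∧
      (∀ v : ℂ, 0 < v.re → DifferentiableAt ℂ fh v) ∧
      ∀ v : ℂ, x₁ < v.re → fh v = f₀ lam c α v := by
  obtain ⟨x₀, hx1, hx₀⟩ := exists_abscissa h0 h1 σ
  obtain ⟨g, K, hK, hgc, hneg, hgpos, hgb, hinv⟩ := lines D h0 h1 hx1 hx₀
  have hx00 : 0 < x₀ := by linarith
  set U : Set ℂ := {v | 0 < v.re} with hU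
  have hUo : IsOpen U := isOpen_lt continuous_const Complex.continuous_re
  have hUc : Convex ℝ U := convex_halfSpace_re_gt 0
  set W : Set ℂ := {v | x₀ < v.re} with hW
  have hWo : IsOpen W := isOpen_lt continuous_const Complex.continuous_re
  have hWc : Convex ℝ W := convex_halfSpace_re_gt x₀
  have hWU : W ⊆ U := fun v hv => lt_trans hx00 hv
  have hUpos : ∀ v ∈ U, 0 < v.re := fun v hv => hv
  -- the Laplace transform
  set G : ℂ → ℂ := fun v => ∫ y in Ioi (0 : ℝ), exp (-(v * y)) * g y with hG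
  have hGW : ∀ v ∈ W, G v = hh (f₀ lam c α) (f₁ lam c α) v := by
    intro v hv
    have e1 := hinv v.re hv v.im
    rw [Complex.re_add_im] at e1
    rw [← e1, hG]
    simp only
    rw [← integral_indicator measurableSet_Ioi]
    refine integral_congr_ae ?_
    have e2 : ∀ᵐ y : ℝ, y ≠ 0 := by
      rw [ae_iff]
      simp
    filter_upwards [e2] with y hy
    by_cases hy2 : y ∈ Ioi (0 : ℝ)
    · rw [indicator_of_mem hy2]
    · rw [indicator_of_notMem hy2]
      have : y < 0 := lt_of_le_of_ne (not_lt.1 hy2) hy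
      rw [hneg y this, mul_zero]
  have hGd : DifferentiableOn ℂ G U := by
    intro t ht
    have ht' : 0 < t.re := ht
    set ε : ℝ := t.re / 3 with hε
    have hε0 : 0 < ε := by rw [hε]; linarith
    obtain ⟨C, y₀, hC⟩ := hM (ε / 2) (by linarith)
    set O : Set ℂ := {v | 2 * ε < v.re} with hO
    have hOo : IsOpen O := isOpen_lt continuous_const Complex.continuous_re
    -- a bound
    set C' : ℝ := K * Real.exp (x₀ * |y₀|) + |C| / (ε / 2) with hC'
    have hC'0 : 0 ≤ C' := by positivity
    have hbd : ∀ y, 0 < y → ‖g y‖ ≤ C' * Real.exp (ε * y) := by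
      intro y hy
      have e0 : 1 ≤ Real.exp (ε * y) := Real.one_le_exp (by positivity)
      rcases le_total y₀ y with h | h
      · rw [hgpos y hy, Complex.norm_real, Real.norm_eq_abs, abs_mul, abs_of_pos hy]
        have e1 := hC y h
        have e2 : y ≤ Real.exp (ε / 2 * y) / (ε / 2) := by
          rw [le_div_iff₀ (by linarith)]
          have := Real.add_one_le_exp (ε / 2 * y)
          linarith
        have e3 : C * Real.exp (ε / 2 * y) ≤ |C| * Real.exp (ε / 2 * y) :=
          mul_le_mul_of_nonneg_right (le_abs_self C) (Real.exp_pos _).le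
        calc y * |M lam c α y| ≤ (Real.exp (ε / 2 * y) / (ε / 2)) *
              (|C| * Real.exp (ε / 2 * y)) :=
              mul_le_mul e2 (e1.trans e3) (abs_nonneg _) (by positivity)
          _ = |C| / (ε / 2) * (Real.exp (ε / 2 * y) * Real.exp (ε / 2 * y)) := by ring
          _ = |C| / (ε / 2) * Real.exp (ε * y) := by
            rw [← Real.exp_add]
            congr 2
            ring
          _ ≤ C' * Real.exp (ε * y) := by
            refine mul_le_mul_of_nonneg_right ?_ (Real.exp_pos _).le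
            rw [hC']
            have : 0 ≤ K * Real.exp (x₀ * |y₀|) := by positivity
            linarith
      · have e1 := hgb y
        have e2 : Real.exp (x₀ * y) ≤ Real.exp (x₀ * |y₀|) := by
          apply Real.exp_le_exp.2
          exact mul_le_mul_of_nonneg_left (h.trans (le_abs_self y₀)) (by linarith)
        calc ‖g y‖ ≤ K * Real.exp (x₀ * |y₀|) := e1.trans (mul_le_mul_of_nonneg_left e2 hK)
          _ ≤ C' := by
            rw [hC']
            have : 0 ≤ |C| / (ε / 2) := by positivity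
            linarith
          _ ≤ _ := le_mul_of_one_le_right hC'0 e0
    have hexp : Integrable (fun T : ℝ => C' * Real.exp (-(ε * T))) (volume.restrict (Ioi 0)) := by
      have := integrableOn_exp_mul_Ioi (a := -ε) (by linarith) 0
      refine Integrable.const_mul ?_ _
      refine this.congr_fun (fun T _ => ?_) measurableSet_Ioi
      simp only
      congr 1
      ring
    have h2 := Pool.Agent.HP.differentiableOn_integral (volume.restrict (Ioi (0 : ℝ)))
      (fun (y : ℝ) (v : ℂ) => if 0 < y then exp (-(v * y)) * g y else 0) O hOo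
      (fun v _ => ?_) (fun y => ?_) (fun y => if 0 < y then C' * Real.exp (-(ε * y)) else 0) ?_
      (fun y v hv => ?_)
    · have h3 : (fun v : ℂ => ∫ y in Ioi (0 : ℝ),
          (if 0 < y then exp (-(v * y)) * g y else 0)) = G := by
        funext v
        rw [hG]
        refine setIntegral_congr_fun measurableSet_Ioi fun y hy => ?_
        rw [if_pos (show 0 < y from hy)]
      rw [h3] at h2
      exact (h2.differentiableAt (hOo.mem_nhds
        (show 2 * ε < t.re by rw [hε]; linarith))).differentiableWithinAt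
    · have h3 : AEStronglyMeasurable (fun y : ℝ => exp (-(v * y)) * g y)
          (volume.restrict (Ioi 0)) := Continuous.aestronglyMeasurable (by fun_prop)
      refine h3.congr ?_
      filter_upwards [ae_restrict_mem measurableSet_Ioi] with y hy
      rw [if_pos (show 0 < y from hy)]
    · by_cases hy : 0 < y
      · simp only [hy, if_true]
        exact Differentiable.differentiableOn (by fun_prop)
      · simp only [hy, if_false]
        exact differentiableOn_const _
    · refine hexp.congr ?_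
      filter_upwards [ae_restrict_mem measurableSet_Ioi] with y hy
      rw [if_pos (show 0 < y from hy)]
    · split_ifs with hy
      · have hv' : 2 * ε < v.re := hv
        rw [norm_mul, Complex.norm_exp]
        have e1 : (-(v * (y : ℂ))).re = -(v.re * y) := by
          rw [Complex.neg_re, Complex.re_mul_ofReal]
        rw [e1]
        calc Real.exp (-(v.re * y)) * ‖g y‖ ≤
              Real.exp (-((2 * ε) * y)) * (C' * Real.exp (ε * y)) := by
              refine mul_le_mul (Real.exp_le_exp.2 ?_) (hbd y hy) (norm_nonneg _) (Real.exp_pos _).le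
              nlinarith
          _ = C' * (Real.exp (-((2 * ε) * y)) * Real.exp (ε * y)) := by ring
          _ = _ := by
            rw [← Real.exp_add]
            congr 2
            ring
      · simp
  -- a primitive
  obtain ⟨GG, hGG⟩ := convex_primitive hUo hUc hGd
  have hWx : ∀ v ∈ W, 0 < v.re ∧ σ + 1 ≤ kap α * ‖v‖ ^ α ∧ σ < (v ^ (α : ℂ)).re := by
    intro v hv
    have e1 : 0 < v.re := hUpos v (hWU hv)
    have hv' : x₀ < v.re := hv
    have e2 : x₀ ≤ ‖v‖ := hv'.le.trans (re_le_norm v)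
    have e3 := hx₀ v e1 e2
    have e4 := re_pow_ge h0 h1 e1
    exact ⟨e1, e3, by linarith⟩
  set w₀ : ℂ := ((x₀ + 1 : ℝ) : ℂ) with hw₀
  have hw₀W : w₀ ∈ W := by
    change x₀ < w₀.re
    rw [hw₀, Complex.ofReal_re]
    linarith
  set k : ℂ := f₀ lam c α w₀ / w₀ + GG w₀ with hk
  have hconst : ∀ v ∈ W, f₀ lam c α v / v + GG v = k := by
    have hd : ∀ v ∈ W, HasDerivAt (fun v => f₀ lam c α v / v + GG v) 0 v := by
      intro v hv
      obtain ⟨e1, e2, e3⟩ := hWx v hv
      have e4 := (f₀_deriv D e1 e3).div (hasDerivAt_id v) (ne_zero' e1)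
      refine (e4.add (hGG v (hWU hv))).congr_deriv ?_
      rw [hGW v hv]
      have := ne_zero' e1
      simp only [hh, id]
      field_simp
      ring
    intro v hv
    refine hWc.is_const_of_fderivWithin_eq_zero (𝕜 := ℂ)
      (fun z hz => (hd z hz).differentiableAt.differentiableWithinAt) (fun z hz => ?_) hv hw₀W
    rw [fderivWithin_of_isOpen hWo hz]
    ext
    simp [(hd z hz).deriv]
  refine ⟨g, fun v => v * (k - GG v), x₀, hgc, hgpos, fun v hv => ?_, fun v hv => ?_, fun v hv => ?_⟩
  · have e1 : HasDerivAt (fun v => k - GG v) (-G v) v := (hGG v hv).const_sub k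
    refine e1.congr_of_eventuallyEq ?_
    filter_upwards [hUo.mem_nhds (show v ∈ U from hv)] with z hz
    have := ne_zero' (hUpos z hz)
    field_simp
  · exact differentiableAt_id.mul ((differentiableAt_const k).sub (hGG v hv).differentiableAt)
  · have e1 := ne_zero' (hWx v hv).1
    simp only
    rw [← hconst v hv]
    field_simp
    ring

/-- the integrals of the bound -/
lemma exp_ints {x : ℝ} (hx : 0 < x) :
    (IntegrableOn (fun y : ℝ => Real.exp (-(x * y))) (Ioi 0) ∧
      ∫ y in Ioi (0 : ℝ), Real.exp (-(x * y)) = x⁻¹) ∧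
    (IntegrableOn (fun y : ℝ => y * Real.exp (-(x * y))) (Ioi 0) ∧
      ∫ y in Ioi (0 : ℝ), y * Real.exp (-(x * y)) = (x ^ 2)⁻¹) ∧
    (IntegrableOn (fun y : ℝ => y ^ 2 * Real.exp (-(x * y))) (Ioi 0) ∧
      ∫ y in Ioi (0 : ℝ), y ^ 2 * Real.exp (-(x * y)) = 2 * (x ^ 3)⁻¹) := by
  have key : ∀ n : ℕ, IntegrableOn (fun y : ℝ => y ^ n * Real.exp (-(x * y))) (Ioi 0) ∧
      ∫ y in Ioi (0 : ℝ), y ^ n * Real.exp (-(x * y)) = n.factorial * (x ^ (n + 1))⁻¹ := by
    intro n
    have e1 := Real.integral_rpow_mul_exp_neg_mul_Ioi (a := n + 1) (r := x) (by positivity) hx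
    have e2 : ∫ y in Ioi (0 : ℝ), y ^ n * Real.exp (-(x * y)) =
        ∫ t in Ioi (0 : ℝ), t ^ (((n : ℝ) + 1) - 1) * Real.exp (-(x * t)) := by
      refine setIntegral_congr_fun measurableSet_Ioi fun y hy => ?_
      simp only [add_sub_cancel_right, Real.rpow_natCast]
    rw [← e2, Real.Gamma_nat_eq_factorial] at e1
    have e3 : (1 / x) ^ ((n : ℝ) + 1) = (x ^ (n + 1))⁻¹ := by
      rw [show ((n : ℝ) + 1) = ((n + 1 : ℕ) : ℝ) by push_cast; ring, Real.rpow_natCast, one_div,
        inv_pow]
    rw [e3] at e1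
    have e4 : ∫ y in Ioi (0 : ℝ), y ^ n * Real.exp (-(x * y)) = n.factorial * (x ^ (n + 1))⁻¹ := by
      rw [e1]
      ring
    refine ⟨?_, e4⟩
    by_contra h
    rw [integral_undef h] at e4
    have : (0 : ℝ) < n.factorial * (x ^ (n + 1))⁻¹ := by positivity
    linarith
  refine ⟨?_, ?_, ?_⟩
  · have := key 0
    simpa using this
  · have := key 1
    simpa using this
  · have := key 2
    simpa using this

/-- **the size of the continuation near the vertex** -/
theorem ext_asy {g : ℝ → ℂ} {fh : ℂ → ℂ} (hgc : Continuous g)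
    (hd : ∀ v : ℂ, 0 < v.re →
        HasDerivAt (fun v => fh v / v) (-∫ y in Ioi (0 : ℝ), exp (-(v * y)) * g y) v)
    {K C y₀ : ℝ} (hK : ∀ y, y₀ ≤ y → 1 ≤ y → ‖g y - ((K * (y * Real.log y) : ℝ) : ℂ)‖ ≤ C * y) :
    ∃ C' : ℝ, ∀ x : ℝ, 0 < x → x ≤ 1 →
      ‖fh x + ((K * Real.log x : ℝ) : ℂ)‖ ≤ C' := by
  set Y : ℝ := max y₀ 1 with hY
  have hY1 : 1 ≤ Y := le_max_right _ _
  -- the remainder
  obtain ⟨B, hB⟩ := (isCompact_Icc (a := (0 : ℝ)) (b := Y)).exists_bound_of_continuousOn
    (f := fun y => g y - ((K * (y * Real.log (1 + y)) : ℝ) : ℂ)) (by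
      refine ContinuousOn.sub hgc.continuousOn ?_
      refine continuous_ofReal.comp_continuousOn ?_
      refine ContinuousOn.mul continuousOn_const (continuousOn_id.mul ?_)
      refine ContinuousOn.log (by fun_prop) fun y hy => ?_
      have := hy.1
      positivity)
  set R : ℝ := |B| + |C| + |K| with hR
  have hR0 : 0 ≤ R := by positivity
  have hrem : ∀ y, 0 ≤ y → ‖g y - ((K * (y * Real.log (1 + y)) : ℝ) : ℂ)‖ ≤ R * (1 + y) := by
    intro y hy
    rcases le_total y Y with h | h
    · have e1 := hB y ⟨hy, h⟩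
      have e2 := le_abs_self B
      have e3 : R ≤ R * (1 + y) := le_mul_of_one_le_right hR0 (by linarith)
      have e4 : |B| ≤ R := by rw [hR]; linarith [abs_nonneg C, abs_nonneg K]
      linarith
    · have hy1 : 1 ≤ y := hY1.trans h
      have hy0 : 0 < y := by linarith
      have e1 := hK y ((le_max_left _ _).trans h) hy1
      have e2 : g y - ((K * (y * Real.log (1 + y)) : ℝ) : ℂ) =
          (g y - ((K * (y * Real.log y) : ℝ) : ℂ)) -
            ((K * (y * (Real.log (1 + y) - Real.log y)) : ℝ) : ℂ) := by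
        push_cast
        ring
      have e3 : |K * (y * (Real.log (1 + y) - Real.log y))| ≤ |K| := by
        have e4 : Real.log (1 + y) - Real.log y ≤ 1 / y := by
          rw [← Real.log_div (by positivity) hy0.ne']
          have := Real.log_le_sub_one_of_pos (show 0 < (1 + y) / y by positivity)
          refine this.trans (le_of_eq ?_)
          field_simp
          ring
        have e5 : 0 ≤ Real.log (1 + y) - Real.log y := by
          have := Real.log_le_log hy0 (show y ≤ 1 + y by linarith)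
          linarith
        rw [abs_mul, abs_of_nonneg (mul_nonneg hy0.le e5)]
        have e6 : y * (Real.log (1 + y) - Real.log y) ≤ 1 := by
          calc _ ≤ y * (1 / y) := mul_le_mul_of_nonneg_left e4 hy0.le
            _ = 1 := by field_simp
        calc _ ≤ |K| * 1 := mul_le_mul_of_nonneg_left e6 (abs_nonneg _)
          _ = |K| := mul_one _
      rw [e2]
      refine (norm_sub_le _ _).trans ?_
      rw [Complex.norm_real, Real.norm_eq_abs]
      have e4 : C * y ≤ |C| * (1 + y) := by
        have h5 := le_abs_self C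
        have h6 := abs_nonneg C
        nlinarith
      have e5 : |K| ≤ |K| * (1 + y) := le_mul_of_one_le_right (abs_nonneg _) (by linarith)
      have e6 : 0 ≤ |B| * (1 + y) := by positivity
      rw [hR, add_mul, add_mul]
      linarith
  set R' : ℝ := 3 * |K| + 2 * R with hR'
  have hR'0 : 0 ≤ R' := by positivity
  -- the Laplace transform on the real axis
  have hL : ∀ x : ℝ, 0 < x → x ≤ 1 → ‖(∫ y in Ioi (0 : ℝ), exp (-((x : ℂ) * y)) * g y) +
      ((K * Real.log x * (x ^ 2)⁻¹ : ℝ) : ℂ)‖ ≤ R' * (x ^ 2)⁻¹ := by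
    intro x hx hx1
    obtain ⟨⟨i1, j1⟩, ⟨i2, j2⟩, ⟨i3, j3⟩⟩ := exp_ints hx
    have hlx : Real.log x ≤ 0 := Real.log_nonpos hx.le hx1
    -- pointwise
    have hpt : ∀ y : ℝ, 0 < y → ‖exp (-((x : ℂ) * y)) * (g y + ((K * Real.log x * y : ℝ) : ℂ))‖ ≤
        |K| * x * (y ^ 2 * Real.exp (-(x * y))) + (|K| * x⁻¹ + R) * Real.exp (-(x * y)) +
          R * (y * Real.exp (-(x * y))) := by
      intro y hy
      rw [norm_mul, Complex.norm_exp]
      have e0 : (-((x : ℂ) * y)).re = -(x * y) := by simp
      rw [e0]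
      have e1 : g y + ((K * Real.log x * y : ℝ) : ℂ) =
          (g y - ((K * (y * Real.log (1 + y)) : ℝ) : ℂ)) +
            ((K * (y * (Real.log x + Real.log (1 + y))) : ℝ) : ℂ) := by
        push_cast
        ring
      have e2 : |K * (y * (Real.log x + Real.log (1 + y)))| ≤ |K| * (x * y ^ 2 + x⁻¹) := by
        rw [abs_mul]
        refine mul_le_mul_of_nonneg_left ?_ (abs_nonneg _)
        rw [← Real.log_mul hx.ne' (by positivity), abs_mul, abs_of_pos hy]
        have hp : 0 < x * (1 + y) := by positivity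
        have hxi : 0 < x⁻¹ := by positivity
        rcases le_total 1 (x * (1 + y)) with h | h
        · rw [abs_of_nonneg (Real.log_nonneg h)]
          have e3 := Real.log_le_sub_one_of_pos hp
          have e4 : y * Real.log (x * (1 + y)) ≤ y * (x * y) := by
            refine mul_le_mul_of_nonneg_left ?_ hy.le
            nlinarith
          calc _ ≤ y * (x * y) := e4
            _ = x * y ^ 2 := by ring
            _ ≤ _ := by linarith
        · rw [abs_of_nonpos (Real.log_nonpos hp.le h)]
          have e3 := Real.one_sub_inv_le_log_of_pos hp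
          have e4 : (x * (1 + y))⁻¹ ≤ (x * y)⁻¹ := by
            apply inv_anti₀ (by positivity)
            nlinarith
          have e5 : y * (-Real.log (x * (1 + y))) ≤ y * (x * y)⁻¹ := by
            refine mul_le_mul_of_nonneg_left ?_ hy.le
            linarith
          calc _ ≤ y * (x * y)⁻¹ := e5
            _ = x⁻¹ := by field_simp
            _ ≤ _ := by
              have : 0 ≤ x * y ^ 2 := by positivity
              linarith
      have e3 : ‖g y + ((K * Real.log x * y : ℝ) : ℂ)‖ ≤
          |K| * x * y ^ 2 + (|K| * x⁻¹ + R) + R * y := by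
        rw [e1]
        refine (norm_add_le _ _).trans ?_
        rw [Complex.norm_real, Real.norm_eq_abs]
        have := hrem y hy.le
        linarith
      calc _ ≤ Real.exp (-(x * y)) * (|K| * x * y ^ 2 + (|K| * x⁻¹ + R) + R * y) :=
            mul_le_mul_of_nonneg_left e3 (Real.exp_pos _).le
        _ = _ := by ring
    have hI : IntegrableOn (fun y : ℝ => |K| * x * (y ^ 2 * Real.exp (-(x * y))) +
        (|K| * x⁻¹ + R) * Real.exp (-(x * y)) + R * (y * Real.exp (-(x * y)))) (Ioi 0) :=
      ((i3.const_mul _).add (i1.const_mul _)).add (i2.const_mul _)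
    have hJ : ∫ y in Ioi (0 : ℝ), (|K| * x * (y ^ 2 * Real.exp (-(x * y))) +
        (|K| * x⁻¹ + R) * Real.exp (-(x * y)) + R * (y * Real.exp (-(x * y)))) =
        |K| * x * (2 * (x ^ 3)⁻¹) + (|K| * x⁻¹ + R) * x⁻¹ + R * (x ^ 2)⁻¹ := by
      have k3 : IntegrableOn (fun y : ℝ => |K| * x * (y ^ 2 * Real.exp (-(x * y)))) (Ioi 0) :=
        i3.const_mul _
      have k1 : IntegrableOn (fun y : ℝ => (|K| * x⁻¹ + R) * Real.exp (-(x * y))) (Ioi 0) :=
        i1.const_mul _
      have k2 : IntegrableOn (fun y : ℝ => R * (y * Real.exp (-(x * y)))) (Ioi 0) :=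
        i2.const_mul _
      have k31 : IntegrableOn (fun y : ℝ => |K| * x * (y ^ 2 * Real.exp (-(x * y))) +
        (|K| * x⁻¹ + R) * Real.exp (-(x * y))) (Ioi 0) := k3.add k1
      rw [integral_add k31 k2, integral_add k3 k1, integral_const_mul, integral_const_mul,
        integral_const_mul, j1, j2, j3]
    have hmeas : AEStronglyMeasurable (fun y : ℝ =>
        exp (-((x : ℂ) * y)) * (g y + ((K * Real.log x * y : ℝ) : ℂ))) (volume.restrict (Ioi 0)) :=
      Continuous.aestronglyMeasurable (by fun_prop)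
    have hi : IntegrableOn (fun y : ℝ =>
        exp (-((x : ℂ) * y)) * (g y + ((K * Real.log x * y : ℝ) : ℂ))) (Ioi 0) := by
      refine Integrable.mono' hI hmeas ?_
      filter_upwards [ae_restrict_mem measurableSet_Ioi] with y hy
      exact hpt y hy
    have hi2 : IntegrableOn (fun y : ℝ => ((y * Real.exp (-(x * y)) : ℝ) : ℂ)) (Ioi 0) :=
      Integrable.ofReal (𝕜 := ℂ) i2
    have hsplit : (fun y : ℝ => exp (-((x : ℂ) * y)) * g y) = fun y : ℝ =>
        exp (-((x : ℂ) * y)) * (g y + ((K * Real.log x * y : ℝ) : ℂ)) -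
          ((K * Real.log x : ℝ) : ℂ) * ((y * Real.exp (-(x * y)) : ℝ) : ℂ) := by
      funext y
      push_cast
      ring
    have hint : (∫ y in Ioi (0 : ℝ), exp (-((x : ℂ) * y)) * g y) +
        ((K * Real.log x * (x ^ 2)⁻¹ : ℝ) : ℂ) = ∫ y in Ioi (0 : ℝ),
          exp (-((x : ℂ) * y)) * (g y + ((K * Real.log x * y : ℝ) : ℂ)) := by
      rw [hsplit, integral_sub hi (hi2.const_mul _), integral_const_mul]
      have e1 : ∫ y in Ioi (0 : ℝ), ((y * Real.exp (-(x * y)) : ℝ) : ℂ) = (((x ^ 2)⁻¹ : ℝ) : ℂ) := by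
        rw [← j2]
        exact integral_ofReal
      rw [e1]
      push_cast
      ring
    rw [hint]
    refine (norm_integral_le_of_norm_le hI ?_).trans ?_
    · filter_upwards [ae_restrict_mem measurableSet_Ioi] with y hy
      exact hpt y hy
    · rw [hJ]
      have e1 : x⁻¹ ≤ (x ^ 2)⁻¹ := by
        apply inv_anti₀ (by positivity)
        nlinarith
      have e2 : |K| * x * (2 * (x ^ 3)⁻¹) + (|K| * x⁻¹ + R) * x⁻¹ + R * (x ^ 2)⁻¹ =
          (3 * |K| + R) * (x ^ 2)⁻¹ + R * x⁻¹ := by
        field_simp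
        ring
      rw [e2, hR']
      have e3 : R * x⁻¹ ≤ R * (x ^ 2)⁻¹ := mul_le_mul_of_nonneg_left e1 hR0
      linarith
  -- the primitive
  set φ : ℂ → ℂ := fun v => fh v / v + K * ((log v + 1) / v) with hφ
  have hφd : ∀ v : ℂ, 0 < v.re → HasDerivAt φ
      (-(∫ y in Ioi (0 : ℝ), exp (-(v * y)) * g y) - K * (log v / v ^ 2)) v := by
    intro v hv
    have hv0 := ne_zero' hv
    have e1 : HasDerivAt (fun v : ℂ => (log v + 1) / v)
        ((v⁻¹ * v - (log v + 1) * 1) / v ^ 2) v :=
      ((Complex.hasDerivAt_log (slit hv)).add_const 1).div (hasDerivAt_id v) hv0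
    refine ((hd v hv).add (e1.const_mul (K : ℂ))).congr_deriv ?_
    rw [inv_mul_cancel₀ hv0]
    ring
  refine ⟨‖φ 1‖ + R' + |K|, fun x hx hx1 => ?_⟩
  have h2 := horiz (f := φ)
    (f' := fun v => -(∫ y in Ioi (0 : ℝ), exp (-(v * y)) * g y) - K * (log v / v ^ 2))
    (v := (x : ℂ)) (T := 1 - x) (by linarith) (B := fun τ => -(R' * (x + τ)⁻¹))
    (B' := fun τ => R' * ((x + τ) ^ 2)⁻¹)
    (fun τ hτ => hφd _ (by
      have := hτ.1
      simp only [Complex.add_re, Complex.ofReal_re]
      linarith))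
    (fun τ hτ => by
      have h5 : x + τ ≠ 0 := by have := hτ.1; positivity
      have e1 : HasDerivAt (fun τ : ℝ => (x + τ)⁻¹) (-1 / (x + τ) ^ 2) τ :=
        ((hasDerivAt_id τ).const_add x).inv h5
      refine (e1.const_mul R').neg.congr_deriv ?_
      ring)
    (fun τ hτ => by
      have h5 : 0 < x + τ := by have := hτ.1; linarith
      have h6 : x + τ ≤ 1 := by have := hτ.2; linarith
      have e1 := hL (x + τ) h5 h6
      have e2 : (x : ℂ) + (τ : ℂ) = ((x + τ : ℝ) : ℂ) := by push_cast; rfl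
      rw [e2, ← norm_neg]
      refine le_trans (le_of_eq ?_) e1
      congr 1
      rw [← Complex.ofReal_log h5.le]
      push_cast
      ring)
  have e3 : (x : ℂ) + ((1 - x : ℝ) : ℂ) = 1 := by push_cast; ring
  simp only [e3, add_zero, add_sub_cancel, inv_one, mul_one] at h2
  have e4 : ‖φ x‖ ≤ ‖φ 1‖ + R' * x⁻¹ := by
    have e5 := norm_sub_norm_le (φ x) (φ 1)
    rw [norm_sub_rev] at e5
    linarith
  have hx0 : (x : ℂ) ≠ 0 := by exact_mod_cast hx.ne'
  have e5 : fh x + ((K * Real.log x : ℝ) : ℂ) = x * φ x - K := by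
    rw [hφ]
    simp only
    rw [← Complex.ofReal_log hx.le]
    push_cast
    field_simp
    ring
  rw [e5]
  refine (norm_sub_le _ _).trans ?_
  rw [norm_mul, Complex.norm_real, Complex.norm_real, Real.norm_eq_abs, Real.norm_eq_abs,
    abs_of_pos hx]
  have e6 : x * ‖φ x‖ ≤ x * (‖φ 1‖ + R' * x⁻¹) := mul_le_mul_of_nonneg_left e4 hx.le
  have e7 : x * (‖φ 1‖ + R' * x⁻¹) = x * ‖φ 1‖ + R' := by field_simp
  have e8 : x * ‖φ 1‖ ≤ ‖φ 1‖ := mul_le_of_le_one_left (norm_nonneg _) hx1
  linarith

end Pool.Agent.TH942.SL
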