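import Pool.Agent.H21.L.R_seed8.TH942.SL.Asy

/-!
# The tail of the means
-/

set_option autoImplicit false

open MeasureTheory Filter Topology Set Complex
open Pool.Agent.TH942.LS (Dat P P_le Cont Qf)

namespace Pool.Agent.TH942.SL

variable {α : ℝ} {lam c : ℕ → ℝ} {δ σ : ℝ} {Ψ Kf : ℂ → ℂ}

/-- **the weights far out** -/
theorem wml_tail (h0 : 0 < α) (h1 : α < 1) {σ δ : ℝ} (hδ : 0 < δ) :
    ∃ B C : ℝ, 0 < B ∧ 0 ≤ C ∧ ∀ y l : ℝ, 0 < y → δ ≤ l → B * y ≤ l →
      |wml α (l * y ^ (-α))| ≤ C * Real.exp (-(σ * l)) := by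
  obtain ⟨x₀, hx1, hx₀⟩ := exists_abscissa h0 h1 σ
  have hx00 : 0 < x₀ := by linarith
  have hk := kap_pos h0 h1
  obtain ⟨K, hK, hK'⟩ := stretched h0 (a := δ * kap α) (by positivity)
  have hdec := decay_int (p := 2) (by norm_num)
  set I₂ : ℝ := ∫ t : ℝ, (1 + |t|) ^ (-(2 : ℝ)) with hI2
  have hI20 : 0 ≤ I₂ := integral_nonneg fun t => by positivity
  have hre : ∀ t : ℝ, ((x₀ : ℂ) + t * I).re = x₀ := fun t => by simp
  have him : ∀ t : ℝ, ((x₀ : ℂ) + t * I).im = t := fun t => by simp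
  refine ⟨x₀, (2 * Real.pi)⁻¹ * (Real.exp (δ * (σ + 1)) * K * I₂), hx00,
    by positivity, fun y l hy hl hyl => ?_⟩
  have hl0 : 0 < l := hδ.trans_le hl
  have e0 : |wml α (l * y ^ (-α))| = ‖V x₀ (fun z => exp (z * y - l * z ^ (α : ℂ)) / z)‖ := by
    rw [V_scaled h0 h1 hl0 hy hx00, wc_eq h0 h1 (mul_pos hl0 (Real.rpow_pos_of_pos hy _)),
      Complex.norm_real, Real.norm_eq_abs]
  rw [e0]
  have e1 := norm_V_le (H := fun z => exp (z * y - l * z ^ (α : ℂ)) / z) (c := x₀)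
    (g := fun t => (Real.exp (-(σ * l)) * (Real.exp (δ * (σ + 1)) * K)) *
      (1 + |t|) ^ (-(2 : ℝ))) (hdec.const_mul _) fun t => by
      set z : ℂ := (x₀ : ℂ) + t * I with hz
      have hz0 : 0 < z.re := by rw [hz, hre]; exact hx00
      have hn : x₀ ≤ ‖z‖ := by
        have := re_le_norm z
        rwa [hz, hre] at this
      have h2 := hx₀ z hz0 hn
      have h3 := re_pow_ge h0 h1 hz0
      rw [norm_div, Complex.norm_exp]
      have e2 : (z * y - l * z ^ (α : ℂ)).re = x₀ * y - l * (z ^ (α : ℂ)).re := by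
        rw [Complex.sub_re, Complex.re_mul_ofReal, Complex.re_ofReal_mul, hz, hre]
      rw [e2]
      have e5 : |t| ^ α ≤ ‖z‖ ^ α := by
        refine Real.rpow_le_rpow (abs_nonneg _) ?_ h0.le
        have := abs_im_le_norm z
        rwa [hz, him] at this
      have e6 := mul_le_mul_of_nonneg_left e5 (by positivity : 0 ≤ δ * kap α)
      have e3 : Real.exp (x₀ * y - l * (z ^ (α : ℂ)).re) ≤ Real.exp (-(σ * l)) *
          (Real.exp (δ * (σ + 1)) * Real.exp (-(δ * kap α * |t| ^ α))) := by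
        rw [← Real.exp_add, ← Real.exp_add]
        apply Real.exp_le_exp.2
        have e4 := mul_le_mul_of_nonneg_left h3 hl0.le
        have e7 := mul_le_mul_of_nonneg_left hl (sub_nonneg.2 h2)
        nlinarith
      calc Real.exp (x₀ * y - l * (z ^ (α : ℂ)).re) / ‖z‖ ≤
            Real.exp (x₀ * y - l * (z ^ (α : ℂ)).re) :=
            div_le_self (Real.exp_pos _).le (by linarith)
        _ ≤ Real.exp (-(σ * l)) * (Real.exp (δ * (σ + 1)) * (K * (1 + |t|) ^ (-(2 : ℝ)))) := by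
            refine e3.trans ?_
            have := hK' |t| (abs_nonneg _)
            gcongr
        _ = _ := by ring
  rw [integral_const_mul] at e1
  refine e1.trans (le_of_eq ?_)
  rw [hI2]
  ring

/-- **the finite part of the mean** -/
theorem M_finite (D : Dat lam c δ σ) (h0 : 0 < α) (h1 : α < 1) :
    ∃ B C : ℝ, 0 < B ∧ 0 ≤ C ∧ ∀ (y : ℝ) (F : Finset ℕ), 0 < y →
      (∀ n, n ∉ F → c n = 0 ∨ B * y ≤ lam n) →
      |M lam c α y - ∑ n ∈ F, c n * wml α (lam n * y ^ (-α))| ≤ C := by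
  obtain ⟨B, C, hB, hC, h⟩ := wml_tail h0 h1 (σ := σ) D.δ0
  obtain ⟨x₀, hx1, hx₀⟩ := exists_abscissa h0 h1 σ
  have hS := S₀_nonneg lam c σ
  refine ⟨B, C * S₀ lam c σ, hB, by positivity, fun y F hy hF => ?_⟩
  obtain ⟨-, hsum⟩ := M_eq D h0 h1 (x := x₀) (by linarith) hy fun z hz => by
    have e1 : 0 < z.re := by rw [hz]; linarith
    have e2 : x₀ ≤ ‖z‖ := by rw [← hz]; exact re_le_norm z
    linarith [hx₀ z e1 e2]
  unfold M
  rw [← hsum.sum_add_tsum_compl (s := F), add_sub_cancel_left]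
  have hs2 : Summable fun n : ↑((F : Set ℕ)ᶜ) => C * (|c n| * Real.exp (-(σ * lam n))) :=
    (D.sum.mul_left C).subtype _
  have e1 : ∀ n : ↑((F : Set ℕ)ᶜ), ‖c n * wml α (lam n * y ^ (-α))‖ ≤
      C * (|c n| * Real.exp (-(σ * lam n))) := by
    intro n
    rw [norm_mul, Real.norm_eq_abs, Real.norm_eq_abs]
    rcases hF n (fun h => n.2 h) with h2 | h2
    · rw [h2, abs_zero, zero_mul, zero_mul, mul_zero]
    · calc |c n| * |wml α (lam n * y ^ (-α))| ≤ |c n| * (C * Real.exp (-(σ * lam n))) :=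
          mul_le_mul_of_nonneg_left (h y (lam n) hy (D.lam_ge n) h2) (abs_nonneg _)
        _ = _ := by ring
  have e2 := tsum_of_norm_bounded hs2.hasSum e1
  rw [Real.norm_eq_abs] at e2
  refine e2.trans ?_
  have e3 : ∑' n : ↑((F : Set ℕ)ᶜ), C * (|c n| * Real.exp (-(σ * lam n))) ≤
      ∑' n, C * (|c n| * Real.exp (-(σ * lam n))) :=
    Summable.tsum_subtype_le (fun n => C * (|c n| * Real.exp (-(σ * lam n)))) _
      (fun n => by positivity) (D.sum.mul_left C)
  refine e3.trans (le_of_eq ?_)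
  rw [tsum_mul_left]
  rfl

end Pool.Agent.TH942.SL
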