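import Pool.Agent.H21.L.R_seed8.TH942.SL.Loc

/-!
# Zero-free sectors imply the asymptotic formula for the means
-/

set_option autoImplicit false

open MeasureTheory Filter Topology Set Complex
open Pool.Agent.TH942.LS (Dat P P_le Cont Qf)

namespace Pool.Agent.TH942.SL

variable {α : ℝ} {lam c : ℕ → ℝ} {δ σ : ℝ} {Ψ Kf : ℂ → ℂ}

lemma re_pow_ge' (h0 : 0 < α) (h1 : α < 1) {v : ℂ} (hv : 0 ≤ v.re) :
    kap α * ‖v‖ ^ α ≤ (v ^ (α : ℂ)).re := by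
  rw [re_pow, mul_comm]
  refine mul_le_mul_of_nonneg_left ?_ (by positivity)
  have h2 := abs_arg_le_pi_div_two_iff.2 hv
  have hpi := Real.pi_pos
  rw [← Real.cos_abs (arg v * α)]
  unfold kap
  refine Real.cos_le_cos_of_nonneg_of_le_pi (abs_nonneg _) (by nlinarith) ?_
  rw [abs_mul, abs_of_pos h0]
  nlinarith

lemma re_pow_pos' (h0 : 0 < α) (h1 : α < 1) {v : ℂ} (hv : 0 ≤ v.re) (hv0 : v ≠ 0) :
    0 < (v ^ (α : ℂ)).re :=
  (mul_pos (kap_pos h0 h1) (Real.rpow_pos_of_pos (norm_pos_iff.2 hv0) _)).trans_le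
    (re_pow_ge' h0 h1 hv)

lemma slit' {v : ℂ} (hv : 0 ≤ v.re) (hv0 : v ≠ 0) : v ∈ slitPlane := by
  rcases hv.lt_or_eq with h | h
  · exact Or.inl h
  · refine Or.inr fun h2 => hv0 ?_
    apply Complex.ext
    · simpa using h.symm
    · simpa using h2

/-- the pulled back function -/
noncomputable def chi (Ψ : ℂ → ℂ) (α : ℝ) (v : ℂ) : ℂ := Ψ (v ^ (α : ℂ))

/-- the continuation of the derivative -/
noncomputable def qf (Ψ Kf : ℂ → ℂ) (α : ℝ) (v : ℂ) : ℂ :=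
  -(α * v ^ ((α : ℂ) - 1) * Qf Ψ Kf (v ^ (α : ℂ)))

lemma pow_analytic {v : ℂ} (hv : v ∈ slitPlane) : AnalyticAt ℂ (fun v : ℂ => v ^ (α : ℂ)) v :=
  AnalyticAt.cpow analyticAt_id analyticAt_const hv

lemma chi_analytic (H : Cont lam c σ 0 Ψ Kf) (h0 : 0 < α) (h1 : α < 1) {v : ℂ} (hv : 0 ≤ v.re)
    (hv0 : v ≠ 0) : AnalyticAt ℂ (chi Ψ α) v :=
  AnalyticAt.comp (f := fun v : ℂ => v ^ (α : ℂ)) (H.analytic (re_pow_pos' h0 h1 hv hv0))
    (pow_analytic (slit' hv hv0))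

lemma chi_deriv (H : Cont lam c σ 0 Ψ Kf) (h0 : 0 < α) (h1 : α < 1) {v : ℂ} (hv : 0 < v.re) :
    deriv (chi Ψ α) v = deriv Ψ (v ^ (α : ℂ)) * (α * v ^ ((α : ℂ) - 1)) := by
  have e4 : HasDerivAt (chi Ψ α) (deriv Ψ (v ^ (α : ℂ)) * (α * v ^ ((α : ℂ) - 1))) v :=
    HasDerivAt.comp (h := fun v : ℂ => v ^ (α : ℂ)) v
      (H.Ψd _ (re_pow_pos h0 h1 hv)).hasDerivAt (pow_deriv (slit hv))
  exact e4.deriv

lemma qf_eq (H : Cont lam c σ 0 Ψ Kf) (h0 : 0 < α) (h1 : α < 1) {v : ℂ} (hv : 0 < v.re) :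
    qf Ψ Kf α v = -(deriv (chi Ψ α) v / chi Ψ α v) +
      α * v ^ ((α : ℂ) - 1) * Kf (v ^ (α : ℂ)) := by
  rw [chi_deriv H h0 h1 hv]
  unfold qf Qf chi
  ring

lemma qf_far (H : Cont lam c σ 0 Ψ Kf) (h0 : 0 < α) (h1 : α < 1) {v : ℂ} (hv : 0 < v.re)
    (hs : σ + 1 ≤ kap α * ‖v‖ ^ α) : qf Ψ Kf α v = f₁ lam c α v := by
  have e1 := re_pow_ge h0 h1 hv
  unfold qf f₁ Qf
  rw [H.eq _ (by linarith)]

lemma qf_diff (H : Cont lam c σ 0 Ψ Kf) (h0 : 0 < α) (h1 : α < 1)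
    (hne : ∀ v : ℂ, 0 < v.re → Ψ (v ^ (α : ℂ)) ≠ 0) {v : ℂ} (hv : 0 < v.re) :
    DifferentiableAt ℂ (qf Ψ Kf α) v := by
  have hp : DifferentiableAt ℂ (fun v : ℂ => v ^ (α : ℂ)) v :=
    (pow_deriv (slit hv)).differentiableAt
  have hre := re_pow_pos h0 h1 hv
  have e1 : DifferentiableAt ℂ (fun v : ℂ => v ^ ((α : ℂ) - 1)) v :=
    differentiableAt_id.cpow_const (slit hv)
  have e2 : DifferentiableAt ℂ (Qf Ψ Kf) (v ^ (α : ℂ)) := by
    unfold Qf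
    exact ((H.analytic hre).deriv.differentiableAt.div (H.Ψd _ hre) (hne v hv)).sub (H.Kd _ hre)
  have e3 : DifferentiableAt ℂ (fun v : ℂ => Qf Ψ Kf (v ^ (α : ℂ))) v :=
    DifferentiableAt.comp (f := fun v : ℂ => v ^ (α : ℂ)) v e2 hp
  exact ((e1.const_mul (α : ℂ)).mul e3).neg

/-- the bound away from `0` -/
theorem qf_mid (D : Dat lam c δ σ) (H : Cont lam c σ 0 Ψ Kf) (h0 : 0 < α) (h1 : α < 1)
    (hne : ∀ v : ℂ, 0 < v.re → Ψ (v ^ (α : ℂ)) ≠ 0) {x₀ : ℝ} (hx1 : 1 ≤ x₀)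
    (hx₀ : ∀ z : ℂ, 0 < z.re → x₀ ≤ ‖z‖ → σ + 1 ≤ kap α * ‖z‖ ^ α) {r : ℝ} (hr : 0 < r) :
    ∃ C : ℝ, 0 ≤ C ∧ ∀ v : ℂ, 0 < v.re → r ≤ ‖v‖ → ‖qf Ψ Kf α v‖ ≤ C * (1 + 1 / v.re) := by
  set K : Set ℂ := {v : ℂ | 0 ≤ v.re ∧ r ≤ ‖v‖ ∧ ‖v‖ ≤ x₀} with hK
  have hKc : IsCompact K := by
    have hcl : IsClosed K := by
      have e1 : IsClosed {v : ℂ | 0 ≤ v.re} := isClosed_le continuous_const Complex.continuous_re
      have e2 : IsClosed {v : ℂ | r ≤ ‖v‖} := isClosed_le continuous_const continuous_norm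
      have e3 : IsClosed {v : ℂ | ‖v‖ ≤ x₀} := isClosed_le continuous_norm continuous_const
      exact e1.inter (e2.inter e3)
    refine (isCompact_closedBall (0 : ℂ) x₀).of_isClosed_subset hcl ?_
    rintro v ⟨-, -, h⟩
    rwa [Metric.mem_closedBall, dist_zero_right]
  have hK0 : ∀ v ∈ K, v ≠ 0 := by
    rintro v ⟨-, h, -⟩ h2
    rw [h2, norm_zero] at h
    linarith
  obtain ⟨C₁, hC₁, hC₁'⟩ := compact_log_deriv (χ := chi Ψ α) hKc (fun v hv => hv.1)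
    (fun v hv => chi_analytic H h0 h1 hv.1 (hK0 v hv)) (fun v hv => hne v hv)
  have hcont : ContinuousOn (fun v : ℂ => (α : ℂ) * v ^ ((α : ℂ) - 1) * Kf (v ^ (α : ℂ))) K := by
    intro v hv
    have e0 := slit' hv.1 (hK0 v hv)
    have e1 : ContinuousAt (fun v : ℂ => v ^ ((α : ℂ) - 1)) v :=
      (differentiableAt_id.cpow_const (c := (α : ℂ) - 1) e0).continuousAt
    have e2 : ContinuousAt (fun v : ℂ => Kf (v ^ (α : ℂ))) v :=
      ContinuousAt.comp (f := fun v : ℂ => v ^ (α : ℂ))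
        (H.Kd _ (re_pow_pos' h0 h1 hv.1 (hK0 v hv))).continuousAt
        (pow_analytic e0).continuousAt
    exact ((continuousAt_const.mul e1).mul e2).continuousWithinAt
  obtain ⟨C₂, hC₂⟩ := hKc.exists_bound_of_continuousOn hcont
  have hS := S₀_nonneg lam c σ
  have hδ := D.δ0
  set C₃ : ℝ := α * (2 / δ * S₀ lam c σ) with hC₃
  have hC30 : 0 ≤ C₃ := by positivity
  refine ⟨C₁ + |C₂| + C₃, by positivity, fun v hv hrv => ?_⟩
  have hp : 0 < 1 / v.re := by positivity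
  rcases le_total ‖v‖ x₀ with h | h
  · have hvK : v ∈ K := ⟨hv.le, hrv, h⟩
    rw [qf_eq H h0 h1 hv]
    have e1 := hC₁' v hvK hv
    have e2 := (hC₂ v hvK).trans (le_abs_self C₂)
    calc _ ≤ ‖-(deriv (chi Ψ α) v / chi Ψ α v)‖ +
          ‖(α : ℂ) * v ^ ((α : ℂ) - 1) * Kf (v ^ (α : ℂ))‖ := norm_add_le _ _
      _ ≤ C₁ * (1 + 1 / v.re) + |C₂| := by rw [norm_neg]; exact add_le_add e1 e2
      _ ≤ _ := by
        have := abs_nonneg C₂
        nlinarith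
  · rw [qf_far H h0 h1 hv (hx₀ v hv h)]
    have e1 := f₁_bound D h0 h1 hv (hx₀ v hv h)
    have e2 : ‖v‖ ^ (α - 1) ≤ 1 :=
      Real.rpow_le_one_of_one_le_of_nonpos (by linarith) (by linarith)
    have e3 : C₃ * ‖v‖ ^ (α - 1) ≤ C₃ * 1 := mul_le_mul_of_nonneg_left e2 hC30
    have := abs_nonneg C₂
    nlinarith

/-- the primitive -/
theorem exists_f (D : Dat lam c δ σ) (H : Cont lam c σ 0 Ψ Kf) (h0 : 0 < α) (h1 : α < 1)
    (hne : ∀ v : ℂ, 0 < v.re → Ψ (v ^ (α : ℂ)) ≠ 0) {x₀ : ℝ} (hx1 : 1 ≤ x₀)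
    (hx₀ : ∀ z : ℂ, 0 < z.re → x₀ ≤ ‖z‖ → σ + 1 ≤ kap α * ‖z‖ ^ α) :
    ∃ f : ℂ → ℂ, (∀ v : ℂ, 0 < v.re → HasDerivAt f (qf Ψ Kf α v) v) ∧
      ∀ v : ℂ, 0 < v.re → x₀ ≤ ‖v‖ → f v = f₀ lam c α v := by
  have hUo : IsOpen {v : ℂ | 0 < v.re} := isOpen_lt continuous_const Complex.continuous_re
  obtain ⟨F, hF⟩ := convex_primitive hUo (convex_halfSpace_re_gt 0) (f := qf Ψ Kf α)
    fun v hv => (qf_diff H h0 h1 hne hv).differentiableWithinAt
  set W : Set ℂ := {v | x₀ < v.re} with hW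
  have hWo : IsOpen W := isOpen_lt continuous_const Complex.continuous_re
  have hWc : Convex ℝ W := convex_halfSpace_re_gt x₀
  set w₀ : ℂ := ((x₀ + 1 : ℝ) : ℂ) with hw₀
  have hw₀W : w₀ ∈ W := by
    change x₀ < w₀.re
    rw [hw₀, Complex.ofReal_re]
    linarith
  set f : ℂ → ℂ := fun v => F v + (f₀ lam c α w₀ - F w₀) with hf
  have hfd : ∀ v : ℂ, 0 < v.re → HasDerivAt f (qf Ψ Kf α v) v := fun v hv =>
    (hF v hv).add_const _
  have hd : ∀ v : ℂ, 0 < v.re → x₀ ≤ ‖v‖ → HasDerivAt (fun v => f v - f₀ lam c α v) 0 v := by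
    intro v hv hv2
    have e0 := hx₀ v hv hv2
    have e1 := re_pow_ge h0 h1 hv
    refine ((hfd v hv).sub (f₀_deriv D hv (by linarith))).congr_deriv ?_
    rw [qf_far H h0 h1 hv e0, sub_self]
  have hWx : ∀ v ∈ W, 0 < v.re ∧ x₀ ≤ ‖v‖ := fun v hv => by
    have hv' : x₀ < v.re := hv
    exact ⟨by linarith, hv'.le.trans (re_le_norm v)⟩
  have hWeq : ∀ v ∈ W, f v - f₀ lam c α v = 0 := by
    intro v hv
    have e1 : f w₀ - f₀ lam c α w₀ = 0 := by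
      rw [hf]
      simp only
      ring
    rw [← e1]
    refine hWc.is_const_of_fderivWithin_eq_zero (𝕜 := ℂ) (f := fun v => f v - f₀ lam c α v)
      (fun z hz => (hd z (hWx z hz).1 (hWx z hz).2).differentiableAt.differentiableWithinAt)
      (fun z hz => ?_) hv hw₀W
    rw [fderivWithin_of_isOpen hWo hz]
    ext
    simp [(hd z (hWx z hz).1 (hWx z hz).2).deriv]
  refine ⟨f, hfd, fun v hv hv2 => ?_⟩
  have hT : (0 : ℝ) ≤ x₀ := by linarith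
  have h2 := horiz (f := fun v => f v - f₀ lam c α v) (f' := fun _ => 0) (v := v) hT
    (B := fun _ => 0) (B' := fun _ => 0)
    (fun τ hτ => hd _ (by simp; linarith [hτ.1]) (by
      have e1 : ‖v‖ ≤ ‖v + (τ : ℂ)‖ := by
        rw [Complex.norm_def, Complex.norm_def]
        apply Real.sqrt_le_sqrt
        rw [Complex.normSq_apply, Complex.normSq_apply]
        simp only [Complex.add_re, Complex.add_im, Complex.ofReal_re, Complex.ofReal_im, add_zero]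
        nlinarith [hτ.1]
      exact hv2.trans e1)) (fun τ _ => hasDerivAt_const _ _) (fun τ _ => by simp)
  simp only [sub_self] at h2
  have h3 : v + (x₀ : ℂ) ∈ W := by
    change x₀ < (v + (x₀ : ℂ)).re
    rw [Complex.add_re, Complex.ofReal_re]
    linarith
  rw [hWeq _ h3, zero_sub, norm_neg] at h2
  exact sub_eq_zero.1 (norm_le_zero_iff.1 h2)

lemma norm_add_real {v : ℂ} (hv : 0 < v.re) {τ : ℝ} (hτ : 0 ≤ τ) : ‖v‖ ≤ ‖v + (τ : ℂ)‖ := by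
  rw [Complex.norm_def, Complex.norm_def]
  apply Real.sqrt_le_sqrt
  rw [Complex.normSq_apply, Complex.normSq_apply]
  simp only [Complex.add_re, Complex.add_im, Complex.ofReal_re, Complex.ofReal_im, add_zero]
  nlinarith

/-- the bound of the primitive away from `0` -/
theorem f_mid (D : Dat lam c δ σ) (h0 : 0 < α) (h1 : α < 1)
    {f : ℂ → ℂ} (hf : ∀ v : ℂ, 0 < v.re → HasDerivAt f (qf Ψ Kf α v) v) {x₀ : ℝ} (hx1 : 1 ≤ x₀)
    (hx₀ : ∀ z : ℂ, 0 < z.re → x₀ ≤ ‖z‖ → σ + 1 ≤ kap α * ‖z‖ ^ α)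
    (hff : ∀ v : ℂ, 0 < v.re → x₀ ≤ ‖v‖ → f v = f₀ lam c α v) {r C : ℝ} (hC : 0 ≤ C)
    (hq : ∀ v : ℂ, 0 < v.re → r ≤ ‖v‖ → ‖qf Ψ Kf α v‖ ≤ C * (1 + 1 / v.re)) :
    ∃ C' : ℝ, 0 ≤ C' ∧ ∀ v : ℂ, 0 < v.re → r ≤ ‖v‖ → ‖f v‖ ≤ C' * (1 + 1 / v.re) := by
  have hS := S₀_nonneg lam c σ
  have hx00 : 0 < x₀ := by linarith
  refine ⟨S₀ lam c σ + C * x₀, by positivity, fun v hv hr => ?_⟩
  have hre : ∀ τ : ℝ, (v + (τ : ℂ)).re = v.re + τ := fun τ => by simp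
  have h2 := horiz (f := f) (f' := qf Ψ Kf α) (v := v) hx00.le
    (B := fun τ => C * (τ + Real.log (v.re + τ))) (B' := fun τ => C * (1 + 1 / (v.re + τ)))
    (fun τ hτ => hf _ (by rw [hre]; linarith [hτ.1]))
    (fun τ hτ => by
      have e1 : HasDerivAt (fun τ : ℝ => v.re + τ) 1 τ := (hasDerivAt_id τ).const_add _
      have e2 := e1.log (by linarith [hτ.1] : v.re + τ ≠ 0)
      exact (((hasDerivAt_id τ).add e2).const_mul C))
    (fun τ hτ => by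
      have := hq (v + τ) (by rw [hre]; linarith [hτ.1]) (hr.trans (norm_add_real hv hτ.1))
      rwa [hre] at this)
  have e0 : x₀ ≤ ‖v + (x₀ : ℂ)‖ := by
    have := Complex.re_le_norm (v + (x₀ : ℂ))
    rw [hre] at this
    linarith
  have e1 : 0 < (v + (x₀ : ℂ)).re := by rw [hre]; linarith
  have e2 : ‖f (v + x₀)‖ ≤ S₀ lam c σ := by
    rw [hff _ e1 e0]
    exact f₀_bound' D h0 h1 e1 (by linarith [hx₀ _ e1 e0])
  have e3 : Real.log (v.re + x₀) - Real.log (v.re + 0) ≤ x₀ / v.re := by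
    rw [add_zero, ← Real.log_div (by positivity) hv.ne']
    have := Real.log_le_sub_one_of_pos (show 0 < (v.re + x₀) / v.re by positivity)
    have e4 : (v.re + x₀) / v.re - 1 = x₀ / v.re := by field_simp; ring
    linarith
  have e4 : ‖f v‖ ≤ ‖f (v + x₀)‖ + ‖f (v + x₀) - f v‖ := by
    have := norm_sub_le (f (v + x₀)) (f (v + x₀) - f v)
    rwa [sub_sub_cancel] at this
  have e5 : C * (x₀ + Real.log (v.re + x₀)) - C * (0 + Real.log (v.re + 0)) ≤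
      C * (x₀ + x₀ / v.re) := by
    have := mul_le_mul_of_nonneg_left e3 hC
    linarith
  have hp : 0 < 1 / v.re := by positivity
  calc ‖f v‖ ≤ S₀ lam c σ + C * (x₀ + x₀ / v.re) := e4.trans (add_le_add e2 (h2.trans e5))
    _ ≤ S₀ lam c σ * (1 + 1 / v.re) + C * x₀ * (1 + 1 / v.re) := by
      refine add_le_add (le_mul_of_one_le_right hS (by linarith)) (le_of_eq ?_)
      ring
    _ = _ := by ring

/-- the behaviour near `0` -/
theorem near (h0 : 0 < α) (h1 : α < 1)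
    {f : ℂ → ℂ} (hf : ∀ v : ℂ, 0 < v.re → HasDerivAt f (qf Ψ Kf α v) v)
    {m r C : ℝ} (hr : 0 < r) {G : ℂ → ℂ}
    (hG : ∀ s : ℂ, 0 < s.re → HasDerivAt G (Kf s) s)
    (hGb : ∀ s : ℂ, 0 < s.re → kap α * ‖s‖ ≤ s.re → ‖s‖ ≤ r → ‖G s‖ ≤ C)
    (hKb : ∀ s : ℂ, 0 < s.re → kap α * ‖s‖ ≤ s.re → ‖s‖ ≤ r → ‖Kf s‖ ≤ C / ‖s‖)
    (hΨb : ∀ s : ℂ, 0 < s.re → kap α * ‖s‖ ≤ s.re → ‖s‖ ≤ r → ‖deriv Ψ s / Ψ s - m / s‖ ≤ C) :
    ∃ r₂ C' : ℝ, 0 < r₂ ∧ r₂ ≤ 1 ∧ 0 ≤ C' ∧ ∀ v : ℂ, 0 < v.re → ‖v‖ ≤ r₂ →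
      ‖f v + m * α * log v‖ ≤ C' ∧ ‖qf Ψ Kf α v + m * α / v‖ ≤ C' / ‖v‖ := by
  obtain ⟨r₁, hr1, hr11, hr1r⟩ : ∃ r₁ : ℝ, 0 < r₁ ∧ r₁ ≤ 1 ∧ r₁ ^ α ≤ r := by
    refine ⟨min 1 (r ^ (1 / α)), lt_min one_pos (by positivity), min_le_left _ _, ?_⟩
    calc (min 1 (r ^ (1 / α))) ^ α ≤ (r ^ (1 / α)) ^ α :=
          Real.rpow_le_rpow (by positivity) (min_le_right _ _) h0.le
      _ = r := by
        rw [← Real.rpow_mul hr.le, one_div_mul_cancel h0.ne', Real.rpow_one]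
  have hC0 : 0 ≤ C := by
    have e1 := kap_pos h0 h1
    have e2 := hGb (r : ℂ) (by simpa using hr) (by
      rw [Complex.norm_real, Real.norm_eq_abs, abs_of_pos hr, Complex.ofReal_re]
      nlinarith [kap_le_one α]) (by rw [Complex.norm_real, Real.norm_eq_abs, abs_of_pos hr])
    exact (norm_nonneg _).trans e2
  -- points of the sector
  have hsec : ∀ v : ℂ, 0 < v.re → ‖v‖ ≤ r₁ → 0 < (v ^ (α : ℂ)).re ∧
      kap α * ‖v ^ (α : ℂ)‖ ≤ (v ^ (α : ℂ)).re ∧ ‖v ^ (α : ℂ)‖ ≤ r := by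
    intro v hv hv1
    refine ⟨re_pow_pos h0 h1 hv, ?_, ?_⟩
    · rw [norm_pow']
      exact re_pow_ge h0 h1 hv
    · rw [norm_pow']
      exact (Real.rpow_le_rpow (norm_nonneg _) hv1 h0.le).trans hr1r
  set Dd : ℂ → ℂ := fun v => f v + m * α * log v - G (v ^ (α : ℂ)) with hDd
  set Dd' : ℂ → ℂ := fun v => -(α * v ^ ((α : ℂ) - 1) *
    (deriv Ψ (v ^ (α : ℂ)) / Ψ (v ^ (α : ℂ)) - m / v ^ (α : ℂ))) with hDd'
  have hpw : ∀ v : ℂ, 0 < v.re → v ^ ((α : ℂ) - 1) = v ^ (α : ℂ) / v := by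
    intro v hv
    rw [Complex.cpow_sub _ _ (ne_zero' hv), Complex.cpow_one]
  have hpne : ∀ v : ℂ, 0 < v.re → v ^ (α : ℂ) ≠ 0 := fun v hv =>
    ne_zero' (re_pow_pos h0 h1 hv)
  have hd : ∀ v : ℂ, 0 < v.re → HasDerivAt Dd (Dd' v) v := by
    intro v hv
    have e1 : HasDerivAt (fun v : ℂ => (m : ℂ) * α * log v) (m * α * v⁻¹) v :=
      (Complex.hasDerivAt_log (slit hv)).const_mul _
    have e2 : HasDerivAt (fun v : ℂ => G (v ^ (α : ℂ)))
        (Kf (v ^ (α : ℂ)) * (α * v ^ ((α : ℂ) - 1))) v :=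
      HasDerivAt.comp (h := fun v : ℂ => v ^ (α : ℂ)) v (hG _ (re_pow_pos h0 h1 hv))
        (pow_deriv (slit hv))
    refine (((hf v hv).add e1).sub e2).congr_deriv ?_
    rw [hDd']
    unfold qf Qf
    have e3 := ne_zero' hv
    have e4 := hpne v hv
    simp only
    rw [hpw v hv]
    field_simp
    ring
  have hD' : ∀ v : ℂ, 0 < v.re → ‖v‖ ≤ r₁ → ‖Dd' v‖ ≤ C * (α * ‖v‖ ^ (α - 1)) := by
    intro v hv hv1
    obtain ⟨e1, e2, e3⟩ := hsec v hv hv1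
    rw [hDd']
    simp only
    rw [norm_neg, norm_mul, norm_pow_deriv h0, mul_comm C]
    exact mul_le_mul_of_nonneg_left (hΨb _ e1 e2 e3) (by positivity)
  set r₂ : ℝ := r₁ / 2 with hr2
  have hr20 : 0 < r₂ := by positivity
  -- the compact set
  set K : Set ℂ := {v : ℂ | r₂ ≤ v.re ∧ ‖v‖ ≤ r₁} with hK
  have hKc : IsCompact K := by
    have hcl : IsClosed K := by
      have e1 : IsClosed {v : ℂ | r₂ ≤ v.re} := isClosed_le continuous_const Complex.continuous_re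
      have e3 : IsClosed {v : ℂ | ‖v‖ ≤ r₁} := isClosed_le continuous_norm continuous_const
      exact e1.inter e3
    refine (isCompact_closedBall (0 : ℂ) r₁).of_isClosed_subset hcl ?_
    rintro v ⟨-, h⟩
    rwa [Metric.mem_closedBall, dist_zero_right]
  obtain ⟨C₁, hC₁⟩ := hKc.exists_bound_of_continuousOn (f := Dd) fun v hv =>
    (hd v (hr20.trans_le hv.1)).continuousAt.continuousWithinAt
  refine ⟨r₂, |C₁| + C + C + C + C * α * (1 + 1), hr20, by rw [hr2]; linarith, by positivity,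
    fun v hv hvr => ⟨?_, ?_⟩⟩
  · have hre : ∀ τ : ℝ, (v + (τ : ℂ)).re = v.re + τ := fun τ => by simp
    have hnorm : ∀ τ ∈ Icc 0 r₂, ‖v + (τ : ℂ)‖ ≤ r₁ := by
      intro τ hτ
      refine (norm_add_le _ _).trans ?_
      rw [Complex.norm_real, Real.norm_eq_abs, abs_of_nonneg hτ.1]
      have := hτ.2
      rw [hr2] at this hvr
      linarith
    have h2 := horiz (f := Dd) (f' := Dd') (v := v) hr20.le
      (B := fun τ => C * (v.re + τ) ^ α) (B' := fun τ => C * (α * (v.re + τ) ^ (α - 1)))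
      (fun τ hτ => hd _ (by rw [hre]; linarith [hτ.1]))
      (fun τ hτ => by
        have e1 : HasDerivAt (fun τ : ℝ => v.re + τ) 1 τ := (hasDerivAt_id τ).const_add _
        have e2 := e1.rpow_const (p := α) (Or.inl (by linarith [hτ.1] : v.re + τ ≠ 0))
        refine (e2.const_mul C).congr_deriv ?_
        ring)
      (fun τ hτ => by
        have hpos : 0 < (v + (τ : ℂ)).re := by rw [hre]; linarith [hτ.1]
        refine (hD' _ hpos (hnorm τ hτ)).trans ?_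
        have e1 : ‖v + (τ : ℂ)‖ ^ (α - 1) ≤ (v.re + τ) ^ (α - 1) := by
          rw [← hre]
          exact Real.rpow_le_rpow_of_nonpos hpos (Complex.re_le_norm _) (by linarith)
        gcongr)
    have e1 : ‖Dd (v + r₂)‖ ≤ |C₁| := by
      refine (hC₁ _ ⟨?_, hnorm r₂ ⟨hr20.le, le_rfl⟩⟩).trans (le_abs_self _)
      rw [hre]
      linarith
    have e2 : (v.re + r₂) ^ α ≤ 1 := by
      have e3 : v.re ≤ r₂ := (Complex.re_le_norm v).trans hvr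
      refine Real.rpow_le_one (by positivity) ?_ h0.le
      rw [hr2] at e3 ⊢
      linarith
    have e3 : C * (v.re + r₂) ^ α - C * (v.re + 0) ^ α ≤ C := by
      have e4 : 0 ≤ C * (v.re + 0) ^ α := by
        have : 0 ≤ v.re + 0 := by linarith
        positivity
      nlinarith
    have e4 : ‖Dd v‖ ≤ ‖Dd (v + r₂)‖ + ‖Dd (v + r₂) - Dd v‖ := by
      have := norm_sub_le (Dd (v + r₂)) (Dd (v + r₂) - Dd v)
      rwa [sub_sub_cancel] at this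
    obtain ⟨g1, g2, g3⟩ := hsec v hv (by rw [hr2] at hvr; linarith)
    have e5 := hGb _ g1 g2 g3
    have e6 : f v + m * α * log v = Dd v + G (v ^ (α : ℂ)) := by
      rw [hDd]
      ring
    rw [e6]
    have e7 : 0 ≤ C * α * (1 + 1) := by positivity
    have e8 := norm_add_le (Dd v) (G (v ^ (α : ℂ)))
    linarith
  · obtain ⟨g1, g2, g3⟩ := hsec v hv (by rw [hr2] at hvr; linarith)
    have hn := norm_pos' hv
    have e1 : qf Ψ Kf α v + m * α / v = Dd' v + α * v ^ ((α : ℂ) - 1) * Kf (v ^ (α : ℂ)) := by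
      rw [hDd']
      unfold qf Qf
      have e3 := ne_zero' hv
      have e4 := hpne v hv
      simp only
      rw [hpw v hv]
      field_simp
      ring
    rw [e1]
    have e2 := hD' v hv (by rw [hr2] at hvr; linarith)
    have e3 : ‖(α : ℂ) * v ^ ((α : ℂ) - 1) * Kf (v ^ (α : ℂ))‖ ≤ C * α / ‖v‖ := by
      rw [norm_mul, norm_pow_deriv h0]
      have e4 := hKb _ g1 g2 g3
      rw [norm_pow'] at e4
      have hvp : 0 < ‖v‖ ^ α := Real.rpow_pos_of_pos hn _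
      calc α * ‖v‖ ^ (α - 1) * ‖Kf (v ^ (α : ℂ))‖ ≤ α * ‖v‖ ^ (α - 1) * (C / ‖v‖ ^ α) := by gcongr
        _ = C * α / ‖v‖ := by
          rw [Real.rpow_sub_one hn.ne']
          field_simp
    have e4 : ‖v‖ ^ (α - 1) ≤ 1 / ‖v‖ := by
      rw [Real.rpow_sub_one hn.ne']
      refine div_le_div_of_nonneg_right ?_ hn.le
      refine Real.rpow_le_one hn.le ?_ h0.le
      rw [hr2] at hvr
      linarith
    have e5 : C * (α * ‖v‖ ^ (α - 1)) ≤ C * α / ‖v‖ := by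
      calc C * (α * ‖v‖ ^ (α - 1)) ≤ C * (α * (1 / ‖v‖)) := by gcongr
        _ = _ := by ring
    have e6 : C * α / ‖v‖ + C * α / ‖v‖ ≤ (|C₁| + C + C + C + C * α * (1 + 1)) / ‖v‖ := by
      rw [← add_div]
      refine div_le_div_of_nonneg_right ?_ hn.le
      have := abs_nonneg C₁
      linarith
    exact ((norm_add_le _ _).trans (add_le_add (e2.trans e5) e3)).trans e6

end Pool.Agent.TH942.SL
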